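import Mathlib

/-!
# Counting in balls of word metrics

`GLen` axiomatises a word length.  `claim` is the main inequality.
-/

set_option autoImplicit false

namespace Pool.Agent.K9h89.TD

/-- A length function on a group behaving like a word length with respect to a finite set. -/
structure GLen {G : Type*} [Group G] (ℓ : G → ℕ) : Prop where
  one : ℓ 1 = 0
  inv : ∀ g, ℓ g⁻¹ = ℓ g
  mul : ∀ g h, ℓ (g * h) ≤ ℓ g + ℓ h
  fin : ∀ n, {g | ℓ g ≤ n}.Finite
  split : ∀ (y : G) (j : ℕ), ∃ w s : G, y = w * s ∧ ℓ w ≤ j ∧ ℓ s ≤ ℓ y - j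

namespace GLen

variable {G : Type*} [Group G] {ℓ : G → ℕ} (h : GLen ℓ)

/-- The ball. -/
noncomputable def B (n : ℕ) : Finset G := (h.fin n).toFinset

lemma mem_B {n : ℕ} {g : G} : g ∈ h.B n ↔ ℓ g ≤ n := by
  simp [B]

/-- Growth. -/
noncomputable def f (n : ℕ) : ℕ := (h.B n).card

lemma B_mono {m n : ℕ} (hmn : m ≤ n) : h.B m ⊆ h.B n := by
  intro g hg
  rw [mem_B] at *
  omega

lemma f_mono {m n : ℕ} (hmn : m ≤ n) : h.f m ≤ h.f n := Finset.card_le_card (h.B_mono hmn)

lemma one_mem (n : ℕ) : (1 : G) ∈ h.B n := by rw [mem_B, h.one]; omega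

lemma f_pos (n : ℕ) : 0 < h.f n := Finset.card_pos.mpr ⟨1, h.one_mem n⟩

section claim

variable {P : Type*} [Group P] [DecidableEq P] [DecidableEq G] (p : G →* P)

/-- Growth of the image. -/
noncomputable def fP (k : ℕ) : ℕ := ((h.B k).image p).card

lemma fP_le_f (k : ℕ) : h.fP p k ≤ h.f k := Finset.card_image_le

lemma fP_pos (k : ℕ) : 0 < h.fP p k :=
  Finset.card_pos.mpr ⟨p 1, Finset.mem_image_of_mem _ (h.one_mem k)⟩

lemma fP_mono {m n : ℕ} (hmn : m ≤ n) : h.fP p m ≤ h.fP p n :=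
  Finset.card_le_card (Finset.image_subset_image (h.B_mono hmn))

lemma fP_add (m n : ℕ) : h.fP p (m + n) ≤ h.fP p m * h.fP p n := by
  classical
  unfold fP
  rw [← Finset.card_product]
  refine (Finset.card_le_card ?_).trans
    (Finset.card_image_le (f := fun q : P × P => q.1 * q.2)
      (s := (h.B m).image p ×ˢ (h.B n).image p))
  intro u hu
  rw [Finset.mem_image] at hu
  obtain ⟨g, hg, rfl⟩ := hu
  rw [mem_B] at hg
  obtain ⟨w, s, rfl, hw, hs⟩ := h.split g m
  rw [Finset.mem_image]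
  refine ⟨(p w, p s), ?_, by simp⟩
  rw [Finset.mem_product]
  refine ⟨Finset.mem_image_of_mem _ (h.mem_B.mpr hw), Finset.mem_image_of_mem _
    (h.mem_B.mpr (by omega))⟩

variable {K : Finset G} {n R : ℕ} {D : Finset G}
  (w s : ℕ → G → G) (hws : ∀ j y, y = w j y * s j y) (hw : ∀ j y, ℓ (w j y) ≤ j)
  (hs : ∀ j y, ℓ (s j y) ≤ ℓ y - j)
  (hD : ∀ y ∈ D, ℓ y ≤ n)
  (hK : ∀ y ∈ D, ∀ y' ∈ D, p y = p y' → ℓ (y' * y⁻¹) ≤ 8 * R → y' * y⁻¹ ∈ K)

/-- Elements of the smaller ball near `v` with the same image. -/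
noncomputable def S (n R j : ℕ) (v : G) : Finset G :=
  (h.B (n - j)).filter (fun v' => p v' = p v ∧ ℓ (v' * v⁻¹) ≤ 2 * R)

include hws hw hs hD hK in
lemma sumS (hRn : R ≤ n) {j : ℕ} (hj : j ≤ R) :
    ∑ y ∈ D, (h.S p n R j (s j y)).card ≤ K.card * h.f n := by
  classical
  rw [← Finset.card_sigma]
  refine Finset.card_le_mul_card_image_of_maps_to (f := fun a : (_ : G) × G => w j a.1 * a.2)
    ?_ K.card ?_
  · rintro ⟨y, v'⟩ hy
    rw [Finset.mem_sigma] at hy
    simp only [S, Finset.mem_filter, mem_B] at hy ⊢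
    have := h.mul (w j y) v'
    have := hw j y
    omega
  · intro z hz
    rcases (Finset.filter (fun a : (_ : G) × G => w j a.1 * a.2 = z)
      (D.sigma fun y => h.S p n R j (s j y))).eq_empty_or_nonempty with he | ⟨⟨y₀, v₀⟩, h0⟩
    · rw [he]; simp
    · refine Finset.card_le_card_of_injOn (fun a : (_ : G) × G => a.1 * y₀⁻¹) ?_ ?_
      · rintro ⟨y, v'⟩ hy
        simp only [Finset.coe_filter, Set.mem_ofPred_eq, Finset.mem_sigma, Finset.mem_filter, S,
          mem_B] at hy h0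
        obtain ⟨⟨hyD, hv1, hv2, hv3⟩, hz1⟩ := hy
        obtain ⟨⟨hyD0, hv10, hv20, hv30⟩, hz0⟩ := h0
        show y * y₀⁻¹ ∈ K
        have hpy : ∀ y v' : G, p v' = p (s j y) → w j y * v' = z → p y = p z := by
          intro y v' h1 h2
          rw [← h2, map_mul, h1, ← map_mul, ← hws]
        refine hK y₀ hyD0 y hyD ?_ ?_
        · rw [hpy y v' hv2 hz1, hpy y₀ v₀ hv20 hz0]
        · have key : ∀ y v' : G, ℓ (v' * (s j y)⁻¹) ≤ 2 * R → w j y * v' = z →
              ℓ (z * y⁻¹) ≤ 4 * R := by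
            intro y v' h1 h2
            have hy' : y⁻¹ = (s j y)⁻¹ * (w j y)⁻¹ := by rw [← mul_inv_rev, ← hws]
            have e : z * y⁻¹ = w j y * (v' * (s j y)⁻¹) * (w j y)⁻¹ := by
              rw [← h2, hy']; group
            rw [e]
            have h3 := h.mul (w j y * (v' * (s j y)⁻¹)) (w j y)⁻¹
            have h4 := h.mul (w j y) (v' * (s j y)⁻¹)
            rw [h.inv] at h3
            have := hw j y
            omega
          have h1 := key y v' hv3 hz1
          have h2 := key y₀ v₀ hv30 hz0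
          have e : y * y₀⁻¹ = (z * y⁻¹)⁻¹ * (z * y₀⁻¹) := by group
          rw [e]
          have h3 := h.mul (z * y⁻¹)⁻¹ (z * y₀⁻¹)
          rw [h.inv] at h3
          omega
      · rintro ⟨y, v'⟩ hy ⟨y', v''⟩ hy' heq
        simp only [Finset.coe_filter, Set.mem_ofPred_eq] at hy hy'
        have e1 : y = y' := mul_right_cancel (b := y₀⁻¹) heq
        subst e1
        have e2 : v' = v'' := by
          have : w j y * v' = w j y * v'' := by rw [hy.2, hy'.2]
          exact mul_left_cancel this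
        rw [e2]

include hws hw hK in
lemma suffixes {j : ℕ} (hj : j ≤ R) {D' : Finset G} (hD' : D' ⊆ D) :
    D'.card ≤ (K.card * h.fP p j) * (D'.image (s j)).card := by
  classical
  refine Finset.card_le_mul_card_image D' _ ?_
  intro v hv
  have h1 : (Finset.filter (fun y => s j y = v) D').card ≤
      K.card * ((h.B j).image p).card := by
    refine Finset.card_le_mul_card_image_of_maps_to (f := fun y => p (w j y)) ?_ K.card ?_
    · intro y _
      exact Finset.mem_image_of_mem _ (h.mem_B.mpr (hw j y))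
    · intro u hu
      rcases (Finset.filter (fun y => p (w j y) = u)
        (Finset.filter (fun y => s j y = v) D')).eq_empty_or_nonempty with he | ⟨y₀, h0⟩
      · rw [he]; simp
      · refine Finset.card_le_card_of_injOn (fun y => y * y₀⁻¹) ?_ ?_
        · intro y hy
          simp only [Finset.coe_filter, Set.mem_ofPred_eq, Finset.mem_filter] at hy h0
          obtain ⟨⟨hy1, hy2⟩, hy3⟩ := hy
          obtain ⟨⟨hy10, hy20⟩, hy30⟩ := h0
          show y * y₀⁻¹ ∈ K
          refine hK y₀ (hD' hy10) y (hD' hy1) ?_ ?_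
          · rw [hws j y, hws j y₀, map_mul, map_mul, hy2, hy20, hy3, hy30]
          · have hy0' : y₀⁻¹ = (s j y₀)⁻¹ * (w j y₀)⁻¹ := by rw [← mul_inv_rev, ← hws]
            have hy' : y = w j y * s j y₀ := by rw [hy20, ← hy2, ← hws]
            have e : y * y₀⁻¹ = w j y * (w j y₀)⁻¹ := by
              calc y * y₀⁻¹ = (w j y * s j y₀) * ((s j y₀)⁻¹ * (w j y₀)⁻¹) := by
                    rw [← hy', ← hy0']
                _ = w j y * (w j y₀)⁻¹ := by group
            rw [e]
            have h3 := h.mul (w j y) (w j y₀)⁻¹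
            rw [h.inv] at h3
            have := hw j y
            have := hw j y₀
            omega
        · intro y _ y' _ heq
          exact mul_right_cancel (b := y₀⁻¹) heq
  exact h1

/-- Typical elements. -/
noncomputable def typ (K : Finset G) (D : Finset G) (n R j : ℕ) : Finset G :=
  D.filter (fun y => D.card * (h.S p n R j (s j y)).card ≤ 2 * K.card * h.f n)

include hws hw hs hD hK in
lemma typ_card (hRn : R ≤ n) {j : ℕ} (hj : j ≤ R) :
    D.card ≤ 2 * (h.typ p s K D n R j).card := by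
  classical
  rcases D.eq_empty_or_nonempty with hE | ⟨y₁, hy₁⟩
  · subst hE; simp
  have hKpos : 0 < K.card := by
    refine Finset.card_pos.mpr ⟨y₁ * y₁⁻¹, hK y₁ hy₁ y₁ hy₁ rfl ?_⟩
    rw [mul_inv_cancel, h.one]; omega
  have hf := h.f_pos n
  have h1 := h.sumS p w s hws hw hs hD hK hRn hj
  set T := D.filter (fun y => ¬ D.card * (h.S p n R j (s j y)).card ≤ 2 * K.card * h.f n) with hT
  have h2 : (h.typ p s K D n R j).card + T.card = D.card :=
    Finset.card_filter_add_card_filter_not _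
  have h3 : T.card * (2 * K.card * h.f n) ≤ D.card * (K.card * h.f n) := by
    calc T.card * (2 * K.card * h.f n) = ∑ y ∈ T, (2 * K.card * h.f n) := by
          rw [Finset.sum_const, smul_eq_mul]
      _ ≤ ∑ y ∈ T, D.card * (h.S p n R j (s j y)).card := by
          refine Finset.sum_le_sum fun y hy => ?_
          rw [hT, Finset.mem_filter] at hy
          omega
      _ ≤ ∑ y ∈ D, D.card * (h.S p n R j (s j y)).card :=
          Finset.sum_le_sum_of_subset (Finset.filter_subset _ _)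
      _ = D.card * ∑ y ∈ D, (h.S p n R j (s j y)).card := by rw [Finset.mul_sum]
      _ ≤ D.card * (K.card * h.f n) := Nat.mul_le_mul_left _ h1
  have h4 : 0 < K.card * h.f n := Nat.mul_pos hKpos hf
  have h5 : (2 * T.card) * (K.card * h.f n) ≤ D.card * (K.card * h.f n) := by
    calc (2 * T.card) * (K.card * h.f n) = T.card * (2 * K.card * h.f n) := by ring
      _ ≤ _ := h3
  have h6 : 2 * T.card ≤ D.card := Nat.le_of_mul_le_mul_right h5 h4
  omega

include hws hw hs hD hK in
/-- The main inequality. -/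
theorem claim (T : Set P) (e : P → G) (K₀ M ρ : ℕ) (hR : R = ρ + K₀) (hRn : R ≤ n)
    (he : ∀ v, ℓ (e v) ≤ K₀)
    (hM : ∀ z : P, {v : P | z * v⁻¹ * (p (e v))⁻¹ ∈ T}.encard ≤ M)
    [DecidablePred (fun x => p x ∈ T)] :
    (∑ x ∈ (h.B ρ).filter (fun x => p x ∈ T), (1 : ℝ) / h.fP p (ℓ x + K₀)) * (D.card : ℝ) ^ 2 ≤
      4 * (K.card : ℝ) ^ 2 * M * (h.f n : ℝ) ^ 2 := by
  classical
  rcases D.eq_empty_or_nonempty with hE | ⟨y₁, hy₁⟩
  · subst hE; simp only [Finset.card_empty, Nat.cast_zero]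
    have : (0:ℝ) ≤ 4 * (K.card : ℝ) ^ 2 * M * (h.f n : ℝ) ^ 2 := by positivity
    simpa using this
  have hKpos : 0 < K.card := by
    refine Finset.card_pos.mpr ⟨y₁ * y₁⁻¹, hK y₁ hy₁ y₁ hy₁ rfl ?_⟩
    rw [mul_inv_cancel, h.one]; omega
  -- the suffixes of typical elements
  set V : ℕ → Finset G := fun j => (h.typ p s K D n R j).image (s j) with hV
  set X := (h.B ρ).filter (fun x => p x ∈ T) with hX
  set Ω := X.sigma (fun x => V (ℓ x + K₀)) with hΩ
  have hXmem : ∀ x ∈ X, ℓ x ≤ ρ ∧ p x ∈ T := by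
    intro x hx
    rw [hX, Finset.mem_filter, mem_B] at hx
    exact hx
  -- suffix facts
  have hVmem : ∀ j v, j ≤ R → v ∈ V j → ℓ v ≤ n - j ∧
      D.card * (h.S p n R j v).card ≤ 2 * K.card * h.f n := by
    intro j v hj hv
    rw [hV] at hv
    simp only [Finset.mem_image, typ, Finset.mem_filter] at hv
    obtain ⟨y, ⟨hy1, hy2⟩, rfl⟩ := hv
    have := hs j y
    have := hD y hy1
    exact ⟨by omega, hy2⟩
  -- the fibres
  have hfib : ∀ z ∈ h.B n, (Ω.filter (fun a => a.1 * e (p a.2) * a.2 = z)).card * D.card ≤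
      M * (2 * K.card * h.f n) := by
    intro z hz
    have hfinU : {v : P | p z * v⁻¹ * (p (e v))⁻¹ ∈ T}.Finite :=
      Set.finite_of_encard_le_coe (hM (p z))
    set U := hfinU.toFinset with hU
    have hUcard : U.card ≤ M := by
      have h1 := hM (p z)
      rw [hfinU.encard_eq_coe_toFinset_card] at h1
      exact_mod_cast h1
    set F := Ω.filter (fun a => a.1 * e (p a.2) * a.2 = z) with hF
    have hmaps : ∀ a ∈ F, p a.2 ∈ U := by
      rintro ⟨x, v⟩ ha
      rw [hF, Finset.mem_filter, hΩ, Finset.mem_sigma] at ha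
      obtain ⟨⟨hx, hv⟩, hz1⟩ := ha
      simp only at hx hv hz1
      rw [hU, Set.Finite.mem_toFinset]
      show p z * (p v)⁻¹ * (p (e (p v)))⁻¹ ∈ T
      have : p z * (p v)⁻¹ * (p (e (p v)))⁻¹ = p x := by
        rw [← hz1, map_mul, map_mul]; group
      rw [this]
      exact (hXmem x hx).2
    have hsum : F.card = ∑ u ∈ U, (F.filter (fun a => p a.2 = u)).card :=
      Finset.card_eq_sum_card_fiberwise hmaps
    have hone : ∀ u ∈ U, (F.filter (fun a => p a.2 = u)).card * D.card ≤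
        2 * K.card * h.f n := by
      intro u hu
      rcases (F.filter (fun a => p a.2 = u)).eq_empty_or_nonempty with hE | hne
      · rw [hE]; simp
      obtain ⟨⟨x₁, v₁⟩, h1, hmin⟩ := Finset.exists_min_image
        (F.filter (fun a => p a.2 = u)) (fun a => ℓ a.1) hne
      have hdata : ∀ a ∈ F.filter (fun a => p a.2 = u), ℓ a.1 ≤ ρ ∧ a.2 ∈ V (ℓ a.1 + K₀) ∧
          a.1 * e u * a.2 = z ∧ p a.2 = u := by
        rintro ⟨x, v⟩ ha
        rw [Finset.mem_filter, hF, Finset.mem_filter, hΩ, Finset.mem_sigma] at ha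
        obtain ⟨⟨⟨hx, hv⟩, hz1⟩, hpu⟩ := ha
        simp only at hx hv hz1 hpu ⊢
        rw [hpu] at hz1
        exact ⟨(hXmem x hx).1, hv, hz1, hpu⟩
      obtain ⟨hx1, hv1, hz1, hp1⟩ := hdata _ h1
      simp only at hx1 hv1 hz1 hp1
      have hj1 : ℓ x₁ + K₀ ≤ R := by omega
      obtain ⟨-, hS1⟩ := hVmem _ _ hj1 hv1
      have hcard : (F.filter (fun a => p a.2 = u)).card ≤ (h.S p n R (ℓ x₁ + K₀) v₁).card := by
        refine Finset.card_le_card_of_injOn (fun a => a.2) ?_ ?_
        · rintro ⟨x, v⟩ ha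
          obtain ⟨hx2, hv2, hz2, hp2⟩ := hdata _ ha
          simp only at hx2 hv2 hz2 hp2
          have hle : ℓ x₁ ≤ ℓ x := hmin _ ha
          have hj2 : ℓ x + K₀ ≤ R := by omega
          obtain ⟨hlv, -⟩ := hVmem _ _ hj2 hv2
          show v ∈ h.S p n R (ℓ x₁ + K₀) v₁
          simp only [S, Finset.mem_filter, mem_B]
          refine ⟨by omega, by rw [hp2, hp1], ?_⟩
          have e1 : v * v₁⁻¹ = (e u)⁻¹ * (x⁻¹ * x₁) * e u := by
            have a1 : v = (e u)⁻¹ * x⁻¹ * z := by rw [← hz2]; group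
            have a2 : v₁ = (e u)⁻¹ * x₁⁻¹ * z := by rw [← hz1]; group
            rw [a1, a2]; group
          rw [e1]
          have b1 := h.mul ((e u)⁻¹ * (x⁻¹ * x₁)) (e u)
          have b2 := h.mul (e u)⁻¹ (x⁻¹ * x₁)
          have b3 := h.mul x⁻¹ x₁
          rw [h.inv] at b2 b3
          have := he u
          omega
        · rintro ⟨x, v⟩ ha ⟨x', v'⟩ ha' heq
          obtain ⟨-, -, hz2, -⟩ := hdata _ ha
          obtain ⟨-, -, hz3, -⟩ := hdata _ ha'
          simp only at hz2 hz3 heq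
          subst heq
          have : x = x' := by
            have : x * (e u * v) = x' * (e u * v) := by rw [← mul_assoc, ← mul_assoc, hz2, hz3]
            exact mul_right_cancel this
          rw [this]
      calc (F.filter (fun a => p a.2 = u)).card * D.card
          ≤ (h.S p n R (ℓ x₁ + K₀) v₁).card * D.card := Nat.mul_le_mul_right _ hcard
        _ = D.card * (h.S p n R (ℓ x₁ + K₀) v₁).card := mul_comm _ _
        _ ≤ _ := hS1
    calc F.card * D.card = ∑ u ∈ U, (F.filter (fun a => p a.2 = u)).card * D.card := by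
          rw [hsum, Finset.sum_mul]
      _ ≤ ∑ u ∈ U, 2 * K.card * h.f n := Finset.sum_le_sum hone
      _ = U.card * (2 * K.card * h.f n) := by rw [Finset.sum_const, smul_eq_mul]
      _ ≤ M * (2 * K.card * h.f n) := Nat.mul_le_mul_right _ hUcard
  have hmapsΩ : ∀ a ∈ Ω, a.1 * e (p a.2) * a.2 ∈ h.B n := by
    rintro ⟨x, v⟩ ha
    rw [hΩ, Finset.mem_sigma] at ha
    simp only at ha ⊢
    obtain ⟨hx, hv⟩ := ha
    have hx1 := (hXmem x hx).1
    have hj : ℓ x + K₀ ≤ R := by omega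
    obtain ⟨hlv, -⟩ := hVmem _ _ hj hv
    rw [mem_B]
    have b1 := h.mul (x * e (p v)) v
    have b2 := h.mul x (e (p v))
    have := he (p v)
    omega
  have hΩcard : Ω.card * D.card ≤ h.f n * (M * (2 * K.card * h.f n)) := by
    calc Ω.card * D.card = ∑ z ∈ h.B n,
          (Ω.filter (fun a => a.1 * e (p a.2) * a.2 = z)).card * D.card := by
          rw [← Finset.sum_mul]
          congr 1
          exact Finset.card_eq_sum_card_fiberwise hmapsΩ
      _ ≤ ∑ z ∈ h.B n, M * (2 * K.card * h.f n) := Finset.sum_le_sum hfib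
      _ = _ := by rw [Finset.sum_const, smul_eq_mul, f]
  have hVcard : ∀ x ∈ X, (D.card : ℝ) * (1 / h.fP p (ℓ x + K₀)) ≤
      2 * K.card * ((V (ℓ x + K₀)).card : ℝ) := by
    intro x hx
    have hx1 := (hXmem x hx).1
    have hj : ℓ x + K₀ ≤ R := by omega
    have h1 := h.typ_card p w s hws hw hs hD hK hRn hj
    have h2 := h.suffixes p w s hws hw hK hj
      (D' := h.typ p s K D n R (ℓ x + K₀)) (Finset.filter_subset _ _)
    have h3 : D.card ≤ (2 * K.card * (V (ℓ x + K₀)).card) * h.fP p (ℓ x + K₀) := by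
      calc D.card ≤ 2 * (h.typ p s K D n R (ℓ x + K₀)).card := h1
        _ ≤ 2 * ((K.card * h.fP p (ℓ x + K₀)) * (V (ℓ x + K₀)).card) := Nat.mul_le_mul_left _ h2
        _ = _ := by ring
    have h4 : (0 : ℝ) < h.fP p (ℓ x + K₀) := by exact_mod_cast h.fP_pos p _
    rw [mul_one_div, div_le_iff₀ h4]
    exact_mod_cast h3
  have hΩcard' : (Ω.card : ℝ) = ∑ x ∈ X, ((V (ℓ x + K₀)).card : ℝ) := by
    rw [hΩ, Finset.card_sigma]
    push_cast
    rfl
  have hfin : (∑ x ∈ X, (1 : ℝ) / h.fP p (ℓ x + K₀)) * (D.card : ℝ) ≤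
      2 * K.card * (Ω.card : ℝ) := by
    rw [hΩcard', Finset.sum_mul, Finset.mul_sum]
    refine Finset.sum_le_sum fun x hx => ?_
    rw [mul_comm]
    exact hVcard x hx
  have hΩR : (Ω.card : ℝ) * D.card ≤ h.f n * (M * (2 * K.card * h.f n)) := by
    exact_mod_cast hΩcard
  have hD0 : (0 : ℝ) ≤ D.card := Nat.cast_nonneg _
  calc (∑ x ∈ X, (1 : ℝ) / h.fP p (ℓ x + K₀)) * (D.card : ℝ) ^ 2
      = ((∑ x ∈ X, (1 : ℝ) / h.fP p (ℓ x + K₀)) * (D.card : ℝ)) * D.card := by ring
    _ ≤ (2 * K.card * (Ω.card : ℝ)) * D.card := mul_le_mul_of_nonneg_right hfin hD0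
    _ = 2 * K.card * ((Ω.card : ℝ) * D.card) := by ring
    _ ≤ 2 * K.card * (h.f n * (M * (2 * K.card * h.f n))) := by
        refine mul_le_mul_of_nonneg_left hΩR (by positivity)
    _ = _ := by ring

end claim

end GLen

end Pool.Agent.K9h89.TD
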