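import Pool.Agent.K9h89.TD.Count

/-!
# The twisted commutativity degree of products of groups with thin centralizers
-/

set_option autoImplicit false
set_option linter.unusedSectionVars false
set_option linter.unusedDecidableInType false
set_option linter.unusedFintypeInType false

namespace Pool.Agent.K9h89.TD

open Filter

/-- Thin subsets of a group: for a suitable choice `e v` in a finite set every element has a
bounded number of expressions `c * e v * v` with `c` in the subset. -/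
def Thin {A : Type*} [Group A] (C : Set A) : Prop :=
  ∃ (E : Set A) (e : A → A) (M : ℕ), E.Finite ∧ (∀ v, e v ∈ E) ∧
    ∀ z, {v : A | z * v⁻¹ * (e v)⁻¹ ∈ C}.encard ≤ M

namespace GLen

variable {G : Type*} [Group G] {ℓ : G → ℕ} (h : GLen ℓ)

lemma f_tendsto [Infinite G] : Tendsto h.f atTop atTop := by
  rw [tendsto_atTop]
  intro m
  obtain ⟨s, hs⟩ := Infinite.exists_subset_card_eq G m
  obtain ⟨N, hN⟩ : ∃ N, ∀ g ∈ s, ℓ g ≤ N := ⟨s.sup ℓ, fun g hg => Finset.le_sup hg⟩
  filter_upwards [eventually_ge_atTop N] with n hn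
  rw [← hs]
  refine Finset.card_le_card ?_
  intro g hg
  rw [mem_B]
  exact (hN g hg).trans hn

lemma diverge [Infinite G] (Q : G → Prop) [DecidablePred Q] {δ C : ℝ} (hδ : 0 < δ) (hC : 0 < C)
    (hQ : ∃ᶠ n in atTop, δ * h.f n ≤ ((h.B n).filter Q).card) (a : ℕ → ℝ)
    (ha : ∀ k n, k ≤ n → 1 / (C * h.f n) ≤ a k) (N : ℕ) :
    ∃ ρ, (N : ℝ) * (δ / (2 * C)) ≤ ∑ x ∈ (h.B ρ).filter Q, a (ℓ x) := by
  classical
  have ha0 : ∀ k, 0 ≤ a k := by
    intro k
    have h1 := ha k k le_rfl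
    have h2 : (0 : ℝ) < h.f k := by exact_mod_cast h.f_pos k
    have : 0 < 1 / (C * h.f k) := by positivity
    linarith
  induction N with
  | zero =>
    refine ⟨0, ?_⟩
    simp only [Nat.cast_zero, zero_mul]
    exact Finset.sum_nonneg fun x _ => ha0 _
  | succ N ih =>
    obtain ⟨ρ, hρ⟩ := ih
    have htr : Tendsto (fun n => δ * (h.f n : ℝ)) atTop atTop :=
      (tendsto_natCast_atTop_atTop.comp h.f_tendsto).const_mul_atTop hδ
    obtain ⟨n, hn1, hn2, hn3⟩ := (hQ.and_eventually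
      ((htr.eventually_ge_atTop (2 * (h.f ρ : ℝ))).and (eventually_ge_atTop ρ))).exists
    refine ⟨n, ?_⟩
    have hsub : (h.B ρ).filter Q ⊆ (h.B n).filter Q :=
      Finset.filter_subset_filter _ (h.B_mono hn3)
    rw [← Finset.sum_sdiff hsub]
    have hfn : (0 : ℝ) < h.f n := by exact_mod_cast h.f_pos n
    have hcard : δ / 2 * h.f n ≤ (((h.B n).filter Q \ (h.B ρ).filter Q).card : ℝ) := by
      have h1 := Finset.card_sdiff_add_card_eq_card hsub
      have h2 : ((h.B ρ).filter Q).card ≤ h.f ρ := Finset.card_filter_le _ _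
      have h3 : ((((h.B n).filter Q \ (h.B ρ).filter Q).card : ℕ) : ℝ) +
        (((h.B ρ).filter Q).card : ℝ) = (((h.B n).filter Q).card : ℝ) := by exact_mod_cast h1
      have h4 : ((((h.B ρ).filter Q).card : ℕ) : ℝ) ≤ h.f ρ := by exact_mod_cast h2
      linarith
    have hsum : δ / (2 * C) ≤ ∑ x ∈ (h.B n).filter Q \ (h.B ρ).filter Q, a (ℓ x) := by
      calc δ / (2 * C) = (δ / 2 * h.f n) * (1 / (C * h.f n)) := by
            field_simp
        _ ≤ (((h.B n).filter Q \ (h.B ρ).filter Q).card : ℝ) * (1 / (C * h.f n)) := by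
            refine mul_le_mul_of_nonneg_right hcard (by positivity)
        _ = ∑ x ∈ (h.B n).filter Q \ (h.B ρ).filter Q, (1 / (C * h.f n)) := by
            rw [Finset.sum_const, nsmul_eq_mul]
        _ ≤ _ := by
            refine Finset.sum_le_sum fun x hx => ?_
            refine ha _ _ ?_
            rw [Finset.mem_sdiff, Finset.mem_filter, mem_B] at hx
            exact hx.1.1
    push_cast
    linarith

end GLen

section main

variable {ι : Type*} [Fintype ι] [DecidableEq ι] {A : ι → Type*} [∀ i, Group (A i)]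
  {ℓ : (∀ i, A i) → ℕ} (h : GLen ℓ) (K : ∀ i, Finset (A i)) (φ : (∀ i, A i) →* (∀ i, A i))

open Classical in
/-- the elements `y` of the ball with `x y = y φ(x)` -/
noncomputable def Dn (n : ℕ) (x : ∀ i, A i) : Finset (∀ i, A i) :=
  (h.B n).filter (fun y => x * y = y * φ x)

open Classical in
/-- the elements `x` of the ball with many `y` -/
noncomputable def En (c : ℝ) (n : ℕ) : Finset (∀ i, A i) :=
  (h.B n).filter (fun x => c / 2 * h.f n ≤ (Dn h φ n x).card)

open Classical in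
/-- the number of elements of `S` with the property `Q` -/
noncomputable def cnt {α : Type*} (S : Finset α) (Q : α → Prop) : ℕ := (S.filter Q).card

lemma cnt_eq {α : Type*} (S : Finset α) (Q : α → Prop) [DecidablePred Q] :
    cnt S Q = (S.filter Q).card := by
  unfold cnt
  congr

lemma cnt_exists {α : Type*} {S : Finset α} {Q : α → Prop} (hS : 0 < cnt S Q) :
    ∃ x ∈ S, Q x := by
  classical
  rw [cnt_eq] at hS
  obtain ⟨x, hx⟩ := Finset.card_pos.mp hS
  rw [Finset.mem_filter] at hx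
  exact ⟨x, hx⟩

lemma cnt_mono {α : Type*} {S S' : Finset α} {Q Q' : α → Prop} (hS : S ⊆ S')
    (hQ : ∀ x, Q x → Q' x) : cnt S Q ≤ cnt S' Q' := by
  classical
  rw [cnt_eq, cnt_eq]
  refine Finset.card_le_card ?_
  intro x hx
  rw [Finset.mem_filter] at hx ⊢
  exact ⟨hS hx.1, hQ x hx.2⟩

/-- positive density for infinitely many radii -/
def Pos (c : ℝ) (Q : (∀ i, A i) → Prop) : Prop :=
  ∃ δ : ℝ, 0 < δ ∧ ∃ᶠ n in atTop, δ * h.f n ≤ cnt (En h φ c n) Q

lemma Pos.exists {c : ℝ} {Q : (∀ i, A i) → Prop} (hQ : Pos h φ c Q) (N : ℕ) :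
    ∃ n, N ≤ n ∧ ∃ x ∈ En h φ c n, Q x := by
  obtain ⟨δ, hδ, hf⟩ := hQ
  obtain ⟨n, hn, hN⟩ := (hf.and_eventually (eventually_ge_atTop N)).exists
  have hfn : (0 : ℝ) < h.f n := by exact_mod_cast h.f_pos n
  have h5 : (0 : ℝ) < (cnt (En h φ c n) Q : ℝ) := lt_of_lt_of_le (by positivity) hn
  exact ⟨n, hN, cnt_exists (by exact_mod_cast h5)⟩

lemma Pos.mono {c : ℝ} {Q Q' : (∀ i, A i) → Prop} (hQ : Pos h φ c Q) (hQQ : ∀ x, Q x → Q' x) :
    Pos h φ c Q' := by
  obtain ⟨δ, hδ, hf⟩ := hQ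
  refine ⟨δ, hδ, hf.mono fun n hn => hn.trans ?_⟩
  exact_mod_cast cnt_mono (Finset.Subset.refl _) hQQ

lemma Pos.split {c : ℝ} {Q : (∀ i, A i) → Prop} (hQ : Pos h φ c Q) {κ : Type*} (S : Finset κ)
    (Q' : κ → (∀ i, A i) → Prop) (hQQ : ∀ x, (∃ n, ℓ x ≤ n) → Q x → ∃ k ∈ S, Q' k x) :
    ∃ k ∈ S, Pos h φ c (fun x => Q x ∧ Q' k x) := by
  classical
  by_contra hcon
  push Not at hcon
  obtain ⟨δ, hδ, hf⟩ := hQ
  have hev : ∀ k ∈ S, ∀ᶠ n in atTop,
      ((cnt (En h φ c n) (fun x => Q x ∧ Q' k x) : ℕ) : ℝ) < δ / (S.card + 1) * h.f n := by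
    intro k hk
    have h1 := hcon k hk
    unfold Pos at h1
    push Not at h1
    exact h1 (δ / (S.card + 1)) (by positivity)
  have hall := (Finset.eventually_all S).mpr hev
  obtain ⟨n, hn1, hn2⟩ := (hf.and_eventually hall).exists
  have hfn : (0 : ℝ) < h.f n := by exact_mod_cast h.f_pos n
  have hcard : cnt (En h φ c n) Q ≤
      ∑ k ∈ S, cnt (En h φ c n) (fun x => Q x ∧ Q' k x) := by
    simp only [cnt_eq]
    refine (Finset.card_le_card ?_).trans Finset.card_biUnion_le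
    intro x hx
    rw [Finset.mem_filter] at hx
    obtain ⟨k, hk, hkx⟩ := hQQ x ⟨_, le_rfl⟩ hx.2
    rw [Finset.mem_biUnion]
    exact ⟨k, hk, by rw [Finset.mem_filter]; exact ⟨hx.1, hx.2, hkx⟩⟩
  have hcard' : ((cnt (En h φ c n) Q : ℕ) : ℝ) ≤
      ∑ k ∈ S, ((cnt (En h φ c n) (fun x => Q x ∧ Q' k x) : ℕ) : ℝ) := by
    exact_mod_cast hcard
  have hle : ∑ k ∈ S, ((cnt (En h φ c n) (fun x => Q x ∧ Q' k x) : ℕ) : ℝ) ≤
      S.card * (δ / (S.card + 1) * h.f n) := by
    rw [← nsmul_eq_mul]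
    exact Finset.sum_le_card_nsmul _ _ _ (fun k hk => (hn2 k hk).le)
  have hlt : (S.card : ℝ) * (δ / (S.card + 1) * h.f n) < δ * h.f n := by
    have h0 : (0 : ℝ) ≤ S.card := Nat.cast_nonneg _
    have : (S.card : ℝ) * (δ / (S.card + 1) * h.f n) = δ * h.f n * (S.card / (S.card + 1)) := by
      field_simp
    rw [this]
    have h2 : (S.card : ℝ) / (S.card + 1) < 1 := by
      rw [div_lt_one (by positivity)]; linarith
    have h3 : 0 < δ * (h.f n : ℝ) := by positivity
    nlinarith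
  linarith

open Classical in
/-- the coordinates in which some short element of the centralizer is not in the finite set -/
noncomputable def JJ (r : ℕ) (x : ∀ i, A i) : Finset ι :=
  Finset.univ.filter (fun i => ∃ g, ℓ g ≤ r ∧ g * x = x * g ∧ g i ∉ K i)

lemma JJ_mono {r r' : ℕ} (hr : r ≤ r') (x : ∀ i, A i) :
    JJ (ℓ := ℓ) K r x ⊆ JJ (ℓ := ℓ) K r' x := by
  classical
  intro i hi
  simp only [JJ, Finset.mem_filter, Finset.mem_univ, true_and] at hi ⊢
  obtain ⟨g, h1, h2⟩ := hi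
  exact ⟨g, h1.trans hr, h2⟩

/-- restriction to the coordinates in `J` -/
def res (J : Finset ι) : (∀ i, A i) →* (∀ i : J, A i) where
  toFun g i := g i
  map_one' := rfl
  map_mul' _ _ := rfl

omit [Fintype ι] [DecidableEq ι] [∀ i, Group (A i)] in
lemma encard_pi_le {ι' : Type*} [Fintype ι'] {B : ι' → Type*} (V : ∀ i, Set (B i)) (M : ι' → ℕ)
    (hM : ∀ i, (V i).encard ≤ M i) : {v : ∀ i, B i | ∀ i, v i ∈ V i}.encard ≤ ((∏ i, M i : ℕ) : ℕ∞) := by
  classical
  have hfin : ∀ i, (V i).Finite := fun i => Set.finite_of_encard_le_coe (hM i)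
  have hsub : {v : ∀ i, B i | ∀ i, v i ∈ V i} ⊆
      ((Fintype.piFinset fun i => (hfin i).toFinset : Finset (∀ i, B i)) : Set (∀ i, B i)) := by
    intro v hv
    rw [Finset.mem_coe, Fintype.mem_piFinset]
    intro i
    rw [Set.Finite.mem_toFinset]
    exact hv i
  refine (Set.encard_le_encard hsub).trans ?_
  rw [Set.encard_coe_eq_coe_finsetCard, Fintype.card_piFinset]
  norm_cast
  refine Finset.prod_le_prod' fun i _ => ?_
  have h1 := hM i
  rw [(hfin i).encard_eq_coe_toFinset_card] at h1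
  exact_mod_cast h1

/-- The main theorem for products of groups with thin centralizers. -/
theorem main [Infinite (∀ i, A i)]
    (hthin : ∀ i, ∀ g : A i, g ∉ K i → Thin {c : A i | c * g = g * c}) {c : ℝ} (hc : 0 < c) :
    ∀ᶠ n in atTop, (∑ x ∈ h.B n, ((Dn h φ n x).card : ℝ)) < c * (h.f n : ℝ) ^ 2 := by
  classical
  by_contra hcon
  rw [Filter.not_eventually] at hcon
  -- step 0: positive density of the set of `x` with many `y`
  have hpos0 : Pos h φ c (fun _ => True) := by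
    refine ⟨c / 2, by positivity, hcon.mono fun n hn => ?_⟩
    push Not at hn
    have hfn : (0 : ℝ) < h.f n := by exact_mod_cast h.f_pos n
    have hE : cnt (En h φ c n) (fun _ => True) = (En h φ c n).card := by
      rw [cnt_eq, Finset.filter_true]
    rw [hE]
    have hsplit : ∑ x ∈ h.B n, ((Dn h φ n x).card : ℝ) ≤
        ((En h φ c n).card : ℝ) * h.f n + h.f n * (c / 2 * h.f n) := by
      have h1 : ∀ x ∈ h.B n, ((Dn h φ n x).card : ℝ) ≤
          (if c / 2 * (h.f n : ℝ) ≤ (Dn h φ n x).card then (h.f n : ℝ) else 0) +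
            c / 2 * h.f n := by
        intro x hx
        have h2 : ((Dn h φ n x).card : ℝ) ≤ h.f n := by
          exact_mod_cast Finset.card_filter_le _ _
        split_ifs with h3
        · have : (0:ℝ) ≤ c / 2 * h.f n := by positivity
          linarith
        · linarith
      refine (Finset.sum_le_sum h1).trans ?_
      rw [Finset.sum_add_distrib, Finset.sum_const, nsmul_eq_mul, ← Finset.sum_filter,
        Finset.sum_const, nsmul_eq_mul]
      exact le_of_eq rfl
    have h4 : c / 2 * (h.f n : ℝ) * h.f n ≤ ((En h φ c n).card : ℝ) * h.f n := by nlinarith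
    exact le_of_mul_le_mul_right h4 hfn
  -- step 1: choice of `J`
  set Fam : Finset (Finset ι) :=
    Finset.univ.filter (fun J => ∃ r, Pos h φ c (fun x => J ⊆ JJ (ℓ := ℓ) K r x)) with hFam
  have hFne : Fam.Nonempty := by
    refine ⟨∅, ?_⟩
    rw [hFam, Finset.mem_filter]
    exact ⟨Finset.mem_univ _, 0, hpos0.mono h φ fun x _ => Finset.empty_subset _⟩
  obtain ⟨J, hJ, hJmax⟩ := Finset.exists_max_image Fam Finset.card hFne
  rw [hFam, Finset.mem_filter] at hJ
  obtain ⟨-, r₀, hr₀⟩ := hJ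
  have hexact : ∀ r, r₀ ≤ r → Pos h φ c (fun x => JJ (ℓ := ℓ) K r x = J) := by
    intro r hr
    have h1 : Pos h φ c (fun x => J ⊆ JJ (ℓ := ℓ) K r x) :=
      hr₀.mono h φ fun x hx => hx.trans (JJ_mono K hr x)
    obtain ⟨J', -, hJ'⟩ := h1.split h φ (Finset.univ : Finset (Finset ι))
      (fun J' x => JJ (ℓ := ℓ) K r x = J') (fun x _ _ => ⟨_, Finset.mem_univ _, rfl⟩)
    have h2 : J' ∈ Fam := by
      rw [hFam, Finset.mem_filter]
      refine ⟨Finset.mem_univ _, r, hJ'.mono h φ ?_⟩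
      rintro x ⟨-, h3⟩
      rw [h3]
    have h3 := hJmax J' h2
    have h4 : J ⊆ J' := by
      obtain ⟨n, -, x, -, hx1, hx2⟩ := hJ'.exists h φ 0
      rw [← hx2]; exact hx1
    have h5 : J = J' := Finset.eq_of_subset_of_card_le h4 h3
    rw [h5]
    exact hJ'.mono h φ fun x hx => hx.2
  -- step 2: fixed centralized elements
  obtain ⟨γ, -, hγ⟩ := hr₀.split h φ (Fintype.piFinset fun _ : ι => h.B r₀)
    (fun γ x => ∀ i ∈ J, γ i * x = x * γ i ∧ γ i i ∉ K i) (by
      intro x _ hx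
      have h1 : ∀ i : ι, ∃ g, ℓ g ≤ r₀ ∧ (i ∈ J → g * x = x * g ∧ g i ∉ K i) := by
        intro i
        by_cases hi : i ∈ J
        · have h2 := hx hi
          rw [JJ, Finset.mem_filter] at h2
          obtain ⟨-, g, h3, h4⟩ := h2
          exact ⟨g, h3, fun _ => h4⟩
        · exact ⟨1, by rw [h.one]; omega, fun h2 => absurd h2 hi⟩
      choose γ hγ1 hγ2 using h1
      refine ⟨γ, ?_, fun i hi => hγ2 i hi⟩
      rw [Fintype.mem_piFinset]
      intro i
      rw [h.mem_B]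
      exact hγ1 i)
  have hγK : ∀ i ∈ J, γ i i ∉ K i := by
    obtain ⟨n, -, x, -, hx⟩ := hγ.exists h φ 0
    exact fun i hi => (hx.2 i hi).2
  -- step 3: thinness data
  have hth : ∀ i : ι, ∃ (E : Set (A i)) (e : A i → A i) (M : ℕ), E.Finite ∧ (∀ v, e v ∈ E) ∧
      (i ∈ J → ∀ z, {v : A i | z * v⁻¹ * (e v)⁻¹ ∈ {c : A i | c * γ i i = γ i i * c}}.encard ≤
        M) := by
    intro i
    by_cases hi : i ∈ J
    · obtain ⟨E, e, M, h1, h2, h3⟩ := hthin i _ (hγK i hi)
      exact ⟨E, e, M, h1, h2, fun _ => h3⟩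
    · exact ⟨{1}, fun _ => 1, 0, Set.finite_singleton _, fun _ => rfl, fun h => absurd h hi⟩
  choose E e M hE he hM using hth
  set p : (∀ i, A i) →* (∀ i : J, A i) := res J with hp
  set e' : (∀ i : J, A i) → (∀ i, A i) := fun v i => if hi : i ∈ J then e i (v ⟨i, hi⟩) else 1
    with he'
  have hpe : ∀ v, p (e' v) = fun i : J => e i (v i) := by
    intro v
    funext i
    show e' v i = _
    rw [he']
    simp
  obtain ⟨K₀, hK₀⟩ : ∃ K₀, ∀ v, ℓ (e' v) ≤ K₀ := by
    have hfin : (Set.range e').Finite := by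
      have hsub : Set.range e' ⊆ {g : ∀ i, A i | ∀ i, g i ∈ insert 1 (E i)} := by
        rintro _ ⟨v, rfl⟩ i
        simp only [he']
        split_ifs with hi
        · exact Set.mem_insert_of_mem _ (he i _)
        · exact Set.mem_insert _ _
      refine Set.Finite.subset ?_ hsub
      have : {g : ∀ i, A i | ∀ i, g i ∈ insert 1 (E i)} = Set.pi Set.univ
        (fun i => insert 1 (E i)) := by
        ext g; simp
      rw [this]
      exact Set.Finite.pi fun i => (hE i).insert 1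
    obtain ⟨K₀, hK₀⟩ := (hfin.image ℓ).bddAbove
    exact ⟨K₀, fun v => hK₀ ⟨_, ⟨v, rfl⟩, rfl⟩⟩
  set T : Set (∀ i : J, A i) := {t | ∀ i : J, t i * γ i i = γ i i * t i} with hT
  set M' : ℕ := ∏ i : J, M i with hM'
  have hMT : ∀ z : (∀ i : J, A i), {v | z * v⁻¹ * (p (e' v))⁻¹ ∈ T}.encard ≤ M' := by
    intro z
    have := encard_pi_le (fun i : J =>
      {v : A i | z i * v⁻¹ * (e i v)⁻¹ ∈ {c : A i | c * γ i i = γ i i * c}}) (fun i => M i)
      (fun i => hM i i.2 (z i))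
    refine le_trans (Set.encard_le_encard ?_) this
    intro v hv i
    have h1 : (z * v⁻¹ * (p (e' v))⁻¹) i * γ i i = γ i i * (z * v⁻¹ * (p (e' v))⁻¹) i := hv i
    rw [hpe] at h1
    exact h1
  -- step 4: positive density of the preimage of `T`
  have hH : ∃ δ : ℝ, 0 < δ ∧ ∃ᶠ n in atTop, δ * h.f n ≤
      (((h.B n).filter (fun x => p x ∈ T)).card : ℝ) := by
    obtain ⟨δ, hδ, hf⟩ := hγ
    refine ⟨δ, hδ, hf.mono fun n hn => hn.trans ?_⟩
    have : cnt (En h φ c n)
      (fun x => J ⊆ JJ (ℓ := ℓ) K r₀ x ∧ ∀ i ∈ J, γ i * x = x * γ i ∧ γ i i ∉ K i) ≤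
        ((h.B n).filter (fun x => p x ∈ T)).card := by
      rw [← cnt_eq]
      refine cnt_mono ?_ ?_
      · rw [En]; exact Finset.filter_subset _ _
      · intro x hx i
        have h1 := (hx.2 i i.2).1
        have h2 := congrFun h1 (i : ι)
        exact h2.symm
    exact_mod_cast this
  obtain ⟨δ, hδ, hf⟩ := hH
  -- step 5: the finite set
  set KJ : Finset (∀ i, A i) := Fintype.piFinset (fun i => if i ∈ J then {1} else K i) with hKJ
  -- step 6: the bound
  have hbound : ∀ ρ : ℕ, (∑ x ∈ (h.B ρ).filter (fun x => p x ∈ T),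
      (1 : ℝ) / h.fP p (ℓ x + K₀)) ≤ 16 * (KJ.card : ℝ) ^ 2 * M' / c ^ 2 := by
    intro ρ
    set R := ρ + K₀ with hR
    set r := max r₀ (8 * R) with hr
    obtain ⟨n, hn2, x, hx, hx3⟩ := (hexact r (le_max_left _ _)).exists h φ R
    have hfn : (0 : ℝ) < h.f n := by exact_mod_cast h.f_pos n
    rw [En, Finset.mem_filter] at hx
    obtain ⟨hx1, hx2⟩ := hx
    have hsp : ∀ (j : ℕ) (y : ∀ i, A i), ∃ w s : (∀ i, A i), y = w * s ∧ ℓ w ≤ j ∧
      ℓ s ≤ ℓ y - j := fun j y => h.split y j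
    choose w s hws hw hs using hsp
    have hD : ∀ y ∈ Dn h φ n x, ℓ y ≤ n := by
      intro y hy
      rw [Dn, Finset.mem_filter, h.mem_B] at hy
      exact hy.1
    have hK' : ∀ y ∈ Dn h φ n x, ∀ y' ∈ Dn h φ n x, p y = p y' → ℓ (y' * y⁻¹) ≤ 8 * R →
        y' * y⁻¹ ∈ KJ := by
      intro y hy y' hy' hpy hl
      rw [Dn, Finset.mem_filter] at hy hy'
      rw [hKJ, Fintype.mem_piFinset]
      intro i
      split_ifs with hi
      · rw [Finset.mem_singleton]
        have h7 : y i = y' i := congrFun hpy ⟨i, hi⟩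
        show y' i * (y i)⁻¹ = 1
        rw [h7, mul_inv_cancel]
      · by_contra hnot
        apply hi
        rw [← hx3, JJ, Finset.mem_filter]
        refine ⟨Finset.mem_univ _, y' * y⁻¹, hl.trans (le_max_right _ _), ?_, hnot⟩
        have h7 : φ x = y⁻¹ * x * y := by rw [mul_assoc, hy.2]; group
        have h8 : x * y' = y' * (y⁻¹ * x * y) := by rw [← h7]; exact hy'.2
        calc y' * y⁻¹ * x = (y' * (y⁻¹ * x * y)) * y⁻¹ := by group
          _ = x * (y' * y⁻¹) := by rw [← h8]; group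
    have hcl := h.claim p w s hws hw hs hD hK' T e' K₀ M' ρ hR hn2 hK₀ hMT
    have hx2' : c / 2 * (h.f n : ℝ) ≤ ((Dn h φ n x).card : ℝ) := hx2
    have hsum0 : 0 ≤ ∑ x ∈ (h.B ρ).filter (fun x => p x ∈ T), (1 : ℝ) / h.fP p (ℓ x + K₀) :=
      Finset.sum_nonneg fun _ _ => by positivity
    rw [le_div_iff₀ (by positivity)]
    have h9 : (c / 2 * (h.f n : ℝ)) ^ 2 ≤ ((Dn h φ n x).card : ℝ) ^ 2 :=
      pow_le_pow_left₀ (by positivity) hx2' 2
    have h10 := (mul_le_mul_of_nonneg_left h9 hsum0).trans hcl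
    have h11 : (0:ℝ) < (h.f n : ℝ) ^ 2 := by positivity
    have h12 : ((∑ x ∈ (h.B ρ).filter (fun x => p x ∈ T), (1 : ℝ) / h.fP p (ℓ x + K₀)) * c ^ 2)
        * (h.f n : ℝ) ^ 2 ≤ (16 * (KJ.card : ℝ) ^ 2 * M') * (h.f n : ℝ) ^ 2 := by
      nlinarith
    exact le_of_mul_le_mul_right h12 h11
  -- step 7: contradiction
  set C : ℝ := ((h.fP p K₀ : ℕ) : ℝ) with hC
  have hC0 : 0 < C := by rw [hC]; exact_mod_cast h.fP_pos p K₀
  have hdiv := fun N => h.diverge (fun x => p x ∈ T) hδ hC0 hf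
    (fun k => (1 : ℝ) / h.fP p (k + K₀)) (by
      intro k n hkn
      have h1 : h.fP p (k + K₀) ≤ h.fP p K₀ * h.f n := by
        calc h.fP p (k + K₀) ≤ h.fP p (n + K₀) := h.fP_mono p (by omega)
          _ ≤ h.fP p n * h.fP p K₀ := h.fP_add p n K₀
          _ ≤ h.f n * h.fP p K₀ := Nat.mul_le_mul_right _ (h.fP_le_f p n)
          _ = _ := mul_comm _ _
      have h2 : (0 : ℝ) < h.fP p (k + K₀) := by exact_mod_cast h.fP_pos p _
      refine one_div_le_one_div_of_le h2 ?_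
      rw [hC]
      exact_mod_cast h1) N
  obtain ⟨N, hN⟩ := exists_nat_gt ((16 * (KJ.card : ℝ) ^ 2 * M' / c ^ 2) / (δ / (2 * C)))
  obtain ⟨ρ, hρ⟩ := hdiv N
  have h1 := hbound ρ
  have h2 : 0 < δ / (2 * C) := by positivity
  rw [div_lt_iff₀ h2] at hN
  linarith

end main

end Pool.Agent.K9h89.TD
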