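import Pool.Agent.H322R3.AcylAlg
import Pool.Agent.K9h89.TD.Main

/-!
# Centralizers in acylindrical actions are thin
-/

set_option autoImplicit false
set_option linter.unusedSectionVars false

namespace Pool.Agent.K9h89.TD.Geo

open Pool.Agent.H322R3.Acyl

section points

variable {X : Type*} [MetricSpace X] {δ : ℝ} (hδ : FourPt X δ)
include hδ

/-- points near a geodesic at the same height are near -/
lemma near {o Z u u' : X} {b : ℝ} (h1 : gp u o Z ≤ b) (h2 : gp u' o Z ≤ b) :
    dist u u' ≤ |dist o u - dist o u'| + 2 * b + 2 * δ := by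
  have h := hδ u u' o Z
  unfold gp at h1 h2
  have e1 := dist_comm u o
  have e2 := dist_comm u' o
  rcases le_total (dist u o + dist u' Z) (dist u Z + dist u' o) with h3 | h3
  · rw [max_eq_right h3] at h
    have := neg_abs_le (dist o u - dist o u')
    linarith
  · rw [max_eq_left h3] at h
    have := le_abs_self (dist o u - dist o u')
    linarith

lemma mids {o Z p q : X} {b l : ℝ} (hl : dist p q = l) (h2 : gp p o q ≤ b) (h3 : gp q p Z ≤ b)
    (h5 : 2 * b + δ < l) : gp p o Z ≤ b + δ ∧ gp q o Z ≤ b + δ := by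
  constructor
  · have h := hδ.gp p o Z q
    have e : gp p Z q = l - gp q p Z := by
      unfold gp; rw [← hl, dist_comm q p, dist_comm q Z]; ring
    by_contra hcon
    push Not at hcon
    have h6 : b + δ < gp p Z q := by rw [e]; linarith
    have h7 : b + δ < min (gp p o Z) (gp p Z q) := lt_min hcon h6
    linarith
  · have h := hδ.gp q Z o p
    have e : gp q o p = l - gp p o q := by
      unfold gp; rw [← hl, dist_comm q p, dist_comm q o, dist_comm p o]; ring
    rw [gp_comm q Z p] at h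
    by_contra hcon
    push Not at hcon
    rw [gp_comm q Z o] at h
    have h6 : b + δ < gp q o p := by rw [e]; linarith
    have h7 : b + δ < min (gp q o Z) (gp q o p) := lt_min hcon h6
    linarith

lemma key {o Z p q p' q' : X} {b l : ℝ} (hl : dist p q = l) (hl' : dist p' q' = l)
    (h2 : gp p o q ≤ b) (h2' : gp p' o q' ≤ b) (h3 : gp q p Z ≤ b) (h3' : gp q' p' Z ≤ b)
    (h4 : gp p q p' ≤ b) (h4' : gp p' q' p ≤ b) (h5 : 3 * b + 2 * δ < l) (hδb : 0 ≤ b) :
    dist p p' ≤ 4 * b + 6 * δ ∧ dist q q' ≤ 6 * b + 6 * δ := by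
  have hδ0 := hδ.nonneg o
  obtain ⟨a1, a2⟩ := mids hδ hl h2 h3 (by linarith)
  obtain ⟨a1', a2'⟩ := mids hδ hl' h2' h3' (by linarith)
  have n1 := near hδ a1 a1'
  have n2 := near hδ a2 a2'
  -- heights
  have s1 : dist o p + l - 2 * b ≤ dist o q := by
    unfold gp at h2; rw [hl, dist_comm p o] at h2; linarith
  have s2 : dist o q ≤ dist o p + l := by
    have := dist_triangle o p q; rw [hl] at this; exact this
  have s1' : dist o p' + l - 2 * b ≤ dist o q' := by
    unfold gp at h2'; rw [hl', dist_comm p' o] at h2'; linarith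
  have s2' : dist o q' ≤ dist o p' + l := by
    have := dist_triangle o p' q'; rw [hl'] at this; exact this
  have m1 := near hδ a1' a2
  have m2 := near hδ a1 a2'
  have t1 : dist o p' - dist o p ≤ dist p p' := by
    have := dist_triangle o p p'; linarith
  have t2 : dist o p - dist o p' ≤ dist p p' := by
    have := dist_triangle o p' p; rw [dist_comm p' p] at this; linarith
  have k1 : l + dist p p' - dist q p' ≤ 2 * b := by
    unfold gp at h4; rw [hl] at h4; linarith
  have k2 : l + dist p p' - dist q' p ≤ 2 * b := by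
    unfold gp at h4'; rw [hl', dist_comm p' p] at h4'; linarith
  rw [dist_comm p' q] at m1
  rw [dist_comm p q'] at m2
  -- the difference of the heights is small
  have d1 : dist o p' - dist o p ≤ 2 * b + 2 * δ := by
    rcases le_total (dist o p') (dist o q) with h | h
    · rw [abs_of_nonpos (by linarith)] at m1
      linarith
    · rw [abs_of_nonneg (by linarith)] at m1
      linarith
  have d2 : dist o p - dist o p' ≤ 2 * b + 2 * δ := by
    rcases le_total (dist o p) (dist o q') with h | h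
    · rw [abs_of_nonpos (by linarith)] at m2
      linarith
    · rw [abs_of_nonneg (by linarith)] at m2
      linarith
  have d3 : |dist o p - dist o p'| ≤ 2 * b + 2 * δ := abs_le.mpr ⟨by linarith, by linarith⟩
  have d4 : |dist o q - dist o q'| ≤ 4 * b + 2 * δ := abs_le.mpr ⟨by linarith, by linarith⟩
  constructor
  · linarith
  · linarith

end points

section act

variable {G X : Type*} [Group G] [MetricSpace X] [MulAction G X]
variable (hi : Isom G X) {δ : ℝ} (hδ : FourPt X δ) (ha : Acylin G X)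
include hi hδ ha

/-- If the orbit of the centralizer of `g` fellow travels the axis of `f` for arbitrarily long
time, then `g` commutes with a power of `f`. -/
lemma commuting_power {f g : G} {x : X} {c : ℝ} (hc : 0 < c)
    (hf : ∀ n : ℕ, c * (n : ℝ) ≤ dist x (f ^ n • x))
    (hub : ∀ T : ℝ, ∃ (k : ℕ) (a : G), a * g = g * a ∧ T ≤ gp x (f ^ k • x) (a • x)) :
    ∃ n : ℕ, 0 < n ∧ g * f ^ n = f ^ n * g := by
  have hδ0 := hδ.nonneg x
  obtain ⟨C, hC0, hC⟩ := exists_qg hi hδ hc hf
  set D := dist x (g • x) with hDdef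
  have hD0 : 0 ≤ D := dist_nonneg
  have hmove : ∀ i : ℕ, dist (f ^ i • x) (g • f ^ i • x) ≤ C + 4 * δ + D := by
    intro i
    obtain ⟨k, a, hag, hk⟩ := hub (dist x (f ^ i • x) + C + 1)
    have hik : i ≤ k := by
      by_contra hcon
      push Not at hcon
      have h1 := mono_of hi hδ hC hcon.le
      have h2 := gp_le_left x (f ^ k • x) (a • x)
      linarith
    have h1 := le_of_sub hi hδ hC hik
    set u := f ^ i • x with hu
    have h4 := hδ.gp x u (f ^ k • x) (a • x)
    have h5 : dist x u - C / 2 ≤ min (gp x u (f ^ k • x)) (gp x (f ^ k • x) (a • x)) :=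
      le_min h1 (by linarith)
    have h6 : dist x u + dist u (a • x) ≤ dist x (a • x) + C + 2 * δ := by
      have h7 : dist x u - C / 2 - δ ≤ gp x u (a • x) := by linarith
      unfold gp at h7
      linarith
    have e1 : dist (g • u) (g • a • x) = dist u (a • x) := hi g u (a • x)
    have e2 : dist (g • a • x) (a • x) = D := by
      rw [← mul_smul, ← hag, mul_smul, hi, dist_comm]
    have e3 : dist (g • u) (g • x) = dist u x := hi g u x
    have h8 := hδ u (g • u) x (a • x)
    have h9 := dist_triangle (g • u) (g • a • x) (a • x)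
    have h10 := dist_triangle (g • u) (g • x) x
    rw [e1, e2] at h9
    rw [e3, dist_comm (g • x) x, ← hDdef] at h10
    rw [dist_comm u x] at h8 h10
    rcases le_total (dist x u + dist (g • u) (a • x)) (dist u (a • x) + dist (g • u) x) with h | h
    · rw [max_eq_right h] at h8; linarith
    · rw [max_eq_left h] at h8; linarith
  obtain ⟨R, N, hRN⟩ := ha (C + 4 * δ + D + 1) (by positivity)
  obtain ⟨m, hm⟩ := exists_nat_gt (R / c)
  have hm' : R ≤ dist x (f ^ m • x) := by
    rw [div_lt_iff₀ hc] at hm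
    have := hf m
    linarith
  obtain ⟨hfin, -⟩ := hRN x (f ^ m • x) hm'
  have hmem : ∀ j : ℕ, (f ^ j)⁻¹ * g * f ^ j ∈
      {h : G | dist x (h • x) ≤ C + 4 * δ + D + 1 ∧
        dist (f ^ m • x) (h • f ^ m • x) ≤ C + 4 * δ + D + 1} := by
    intro j
    constructor
    · have h1 := hmove j
      rw [mul_smul, mul_smul, dist_comm, dist_inv hi, dist_comm]
      linarith
    · have h1 := hmove (j + m)
      rw [mul_smul, mul_smul, dist_comm, dist_inv hi, dist_comm, ← mul_smul (f ^ j), ← pow_add]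
      linarith
  have hninj : ¬ Function.Injective (fun j : ℕ => (f ^ j)⁻¹ * g * f ^ j) := by
    intro hinj
    exact (Set.infinite_range_of_injective hinj)
      (hfin.subset (by rintro _ ⟨j, rfl⟩; exact hmem j))
  have keyl : ∀ i j : ℕ, i < j → (f ^ i)⁻¹ * g * f ^ i = (f ^ j)⁻¹ * g * f ^ j →
      ∃ n : ℕ, 0 < n ∧ g * f ^ n = f ^ n * g := by
    intro i j hij h
    obtain ⟨k, rfl⟩ := Nat.exists_eq_add_of_lt hij
    refine ⟨k + 1, by omega, ?_⟩
    rw [show i + k + 1 = (k + 1) + i by ring, pow_add, mul_inv_rev] at h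
    have h2 : f ^ i * ((f ^ i)⁻¹ * g * f ^ i) * (f ^ i)⁻¹ =
        f ^ i * ((f ^ i)⁻¹ * (f ^ (k + 1))⁻¹ * g * (f ^ (k + 1) * f ^ i)) * (f ^ i)⁻¹ := by
      rw [h]
    have h3 : g = (f ^ (k + 1))⁻¹ * g * f ^ (k + 1) := by
      calc g = f ^ i * ((f ^ i)⁻¹ * g * f ^ i) * (f ^ i)⁻¹ := by group
        _ = _ := h2
        _ = (f ^ (k + 1))⁻¹ * g * f ^ (k + 1) := by group
    have h4 : f ^ (k + 1) * g = f ^ (k + 1) * ((f ^ (k + 1))⁻¹ * g * f ^ (k + 1)) := by
      rw [← h3]
    rw [h4]; group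
  unfold Function.Injective at hninj
  push Not at hninj
  obtain ⟨i, j, h, hij⟩ := hninj
  rcases lt_or_gt_of_ne hij with h' | h'
  · exact keyl i j h' h
  · exact keyl j i h' h.symm

lemma proj_bound {f g : G} {x : X} {c : ℝ} (hc : 0 < c)
    (hf : ∀ n : ℕ, c * (n : ℝ) ≤ dist x (f ^ n • x)) (hfg : ¬ Com f g) :
    ∃ b : ℝ, ∀ (k : ℤ) (a : G), a * g = g * a → gp x (f ^ k • x) (a • x) ≤ b := by
  have h1 : ∃ b : ℝ, ∀ (k : ℕ) (a : G), a * g = g * a → gp x (f ^ k • x) (a • x) ≤ b := by
    by_contra hcon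
    push Not at hcon
    obtain ⟨n, hn, h⟩ := commuting_power hi hδ ha hc hf (fun T => by
      obtain ⟨k, a, h1, h2⟩ := hcon T
      exact ⟨k, a, h1, h2.le⟩)
    exact hfg (Com.of_comm (n := n) (by exact_mod_cast hn.ne') (by rw [zpow_natCast]; exact h))
  have h2 : ∃ b : ℝ, ∀ (k : ℕ) (a : G), a * g = g * a → gp x (f⁻¹ ^ k • x) (a • x) ≤ b := by
    by_contra hcon
    push Not at hcon
    obtain ⟨n, hn, h⟩ := commuting_power hi hδ ha (f := f⁻¹) hc (fun n => by
      rw [inv_pow, dist_inv_self hi]; exact hf n) (fun T => by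
      obtain ⟨k, a, h1, h2⟩ := hcon T
      exact ⟨k, a, h1, h2.le⟩)
    refine hfg (Com.of_comm (n := n) (by exact_mod_cast hn.ne') ?_)
    rw [zpow_natCast]
    rw [inv_pow] at h
    calc g * f ^ n = f ^ n * ((f ^ n)⁻¹ * g) * f ^ n := by group
      _ = f ^ n * (g * (f ^ n)⁻¹) * f ^ n := by rw [h]
      _ = f ^ n * g := by group
  obtain ⟨b1, hb1⟩ := h1
  obtain ⟨b2, hb2⟩ := h2
  refine ⟨max b1 b2, fun k a hag => ?_⟩
  rcases Int.natAbs_eq k with h | h
  · rw [h, zpow_natCast]
    exact (hb1 _ a hag).trans (le_max_left _ _)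
  · rw [h, zpow_neg, zpow_natCast, ← inv_pow]
    exact (hb2 _ a hag).trans (le_max_right _ _)

/-- The centralizer of an element which does not commensurate a loxodromic element is thin. -/
theorem thin_centralizer {f g : G} (hf : Lox X f) (hfg : ¬ Com f g) :
    Thin {c : G | c * g = g * c} := by
  classical
  obtain ⟨x, c, hc, hf⟩ := hf
  have hδ0 := hδ.nonneg x
  obtain ⟨C, hC0, hC⟩ := exists_qg hi hδ hc hf
  obtain ⟨b₀, hb₀⟩ := proj_bound hi hδ ha hc hf hfg
  set b := max b₀ (C / 2 + δ) with hb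
  have hb1 : C / 2 + δ ≤ b := le_max_right _ _
  have hbnn : 0 ≤ b := by linarith
  have hbp : ∀ (k : ℤ) (a : G), a * g = g * a → gp x (f ^ k • x) (a • x) ≤ b :=
    fun k a h => (hb₀ k a h).trans (le_max_left _ _)
  obtain ⟨R, N₀, hRN⟩ := ha (6 * b + 6 * δ + 1) (by positivity)
  obtain ⟨N, hN⟩ := exists_nat_gt (max R (3 * b + 2 * δ) / c)
  have hN' : max R (3 * b + 2 * δ) < dist x (f ^ N • x) := by
    rw [div_lt_iff₀ hc] at hN
    have := hf N
    linarith
  have hNR : R ≤ dist x (f ^ N • x) := (le_max_left _ _).trans hN'.le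
  have hNb : 3 * b + 2 * δ < dist x (f ^ N • x) := (le_max_right _ _).trans_lt hN'
  set e₁ := f ^ (N : ℤ) with he₁
  set e₂ := f ^ (-(N : ℤ)) with he₂
  have hde₁ : dist x (e₁ • x) = dist x (f ^ N • x) := by rw [he₁, zpow_natCast]
  have hde₂ : dist x (e₂ • x) = dist x (f ^ N • x) := by
    rw [he₂, zpow_neg, zpow_natCast, dist_inv_self hi]
  have h12 : gp x (e₁ • x) (e₂ • x) ≤ C / 2 := by
    have h1 : dist (e₂ • x) (e₁ • x) = dist x (f ^ (N + N) • x) := by
      rw [he₁, he₂, dist_zpow hi]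
      congr 3
      omega
    unfold gp
    rw [dist_comm (e₁ • x) (e₂ • x), h1, hde₁, hde₂]
    have := hC N N
    linarith
  -- the choice
  let e : G → G := fun v => if gp x (e₂ • x) (v • x) ≤ b then e₁ else e₂
  have he : ∀ v, (e v = e₁ ∧ gp x (e₂ • x) (v • x) ≤ b) ∨
      (e v = e₂ ∧ gp x (e₁ • x) (v • x) ≤ b) := by
    intro v
    by_cases h : gp x (e₂ • x) (v • x) ≤ b
    · left; exact ⟨if_pos h, h⟩
    · right
      refine ⟨if_neg h, ?_⟩
      push Not at h
      have h1 := hδ.gp x (e₁ • x) (v • x) (e₂ • x)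
      rw [gp_comm x (v • x) (e₂ • x)] at h1
      by_contra hcon
      push Not at hcon
      have h2 : b < min (gp x (e₁ • x) (v • x)) (gp x (e₂ • x) (v • x)) := lt_min hcon h
      linarith
  refine ⟨{e₁, e₂}, e, N₀ + N₀, (Set.finite_singleton _).insert _, ?_, ?_⟩
  · intro v
    rcases he v with h | h
    · rw [h.1]; simp
    · rw [h.1]; simp
  · intro z
    -- for each of the two choices at most `N₀`
    have main : ∀ ε ε' : G, (∀ a : G, a * g = g * a → gp x (ε • x) (a • x) ≤ b) →
        dist x (ε • x) = dist x (f ^ N • x) → ε' = ε⁻¹ →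
        {v : G | gp x (ε' • x) (v • x) ≤ b ∧ (z * v⁻¹ * ε⁻¹) * g = g * (z * v⁻¹ * ε⁻¹)}.encard ≤
          N₀ := by
      intro ε ε' hε hdε hεε'
      set V := {v : G | gp x (ε' • x) (v • x) ≤ b ∧
        (z * v⁻¹ * ε⁻¹) * g = g * (z * v⁻¹ * ε⁻¹)} with hV
      obtain ⟨hFfin, hFcard⟩ := hRN x (ε • x) (by rw [hdε]; exact hNR)
      set F := {h : G | dist x (h • x) ≤ 6 * b + 6 * δ + 1 ∧
        dist (ε • x) (h • ε • x) ≤ 6 * b + 6 * δ + 1} with hF
      rcases V.eq_empty_or_nonempty with hE | ⟨v₁, hv₁⟩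
      · rw [hE, Set.encard_empty]; exact zero_le
      have hFe : F.encard ≤ N₀ := by
        rw [← hFfin.cast_ncard_eq]
        exact_mod_cast hFcard
      refine le_trans ?_ hFe
      refine Set.encard_le_encard_of_injOn (f := fun v => (z * v₁⁻¹ * ε⁻¹)⁻¹ * (z * v⁻¹ * ε⁻¹))
        ?_ ?_
      · intro v hv
        obtain ⟨hv1, hv2⟩ := hv
        obtain ⟨hv11, hv12⟩ := hv₁
        set c₁ := z * v₁⁻¹ * ε⁻¹ with hc₁
        set c₂ := z * v⁻¹ * ε⁻¹ with hc₂
        have hcomm : (c₁⁻¹ * c₂) * g = g * (c₁⁻¹ * c₂) := by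
          have : c₁⁻¹ * g = g * c₁⁻¹ := by
            calc c₁⁻¹ * g = c₁⁻¹ * (g * c₁) * c₁⁻¹ := by group
              _ = c₁⁻¹ * (c₁ * g) * c₁⁻¹ := by rw [hv12]
              _ = g * c₁⁻¹ := by group
          rw [mul_assoc, hv2, ← mul_assoc, this, mul_assoc]
        have hcomm' : (c₂⁻¹ * c₁) * g = g * (c₂⁻¹ * c₁) := by
          have e0 : c₂⁻¹ * c₁ = (c₁⁻¹ * c₂)⁻¹ := by group
          rw [e0]
          set d := c₁⁻¹ * c₂
          calc d⁻¹ * g = d⁻¹ * (g * d) * d⁻¹ := by group
            _ = d⁻¹ * (d * g) * d⁻¹ := by rw [hcomm]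
            _ = g * d⁻¹ := by group
        have hinvc : ∀ c : G, c * g = g * c → c⁻¹ * g = g * c⁻¹ := by
          intro d hd
          calc d⁻¹ * g = d⁻¹ * (g * d) * d⁻¹ := by group
            _ = d⁻¹ * (d * g) * d⁻¹ := by rw [hd]
            _ = g * d⁻¹ := by group
        have hz1 : z = c₁ * ε * v₁ := by rw [hc₁]; group
        have hz2 : z = c₂ * ε * v := by rw [hc₂]; group
        have hl : ∀ c : G, dist (c • x) (c • ε • x) = dist x (f ^ N • x) := by
          intro c; rw [hi, hdε]
        have h2 : ∀ c : G, c * g = g * c → gp (c • x) x (c • ε • x) ≤ b := by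
          intro c hcg
          have h3 : gp (c • x) x (c • ε • x) = gp x (c⁻¹ • x) (ε • x) := by
            have := gp_smul hi c x (c⁻¹ • x) (ε • x)
            rw [smul_inv_smul] at this
            exact this
          rw [h3, gp_comm]
          exact hε _ (hinvc c hcg)
        have h3 : ∀ c v : G, z = c * ε * v → gp x (ε' • x) (v • x) ≤ b →
            gp (c • ε • x) (c • x) (z • x) ≤ b := by
          intro c v hz hv
          have h4 : gp (c • ε • x) (c • x) (z • x) = gp x (ε' • x) (v • x) := by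
            have h5 := gp_smul hi (c * ε) x (ε' • x) (v • x)
            rw [← h5, hz, hεε']
            congr 1
            · rw [mul_smul]
            · rw [mul_smul, smul_inv_smul]
            · simp only [mul_smul]
          rw [h4]; exact hv
        have h4 : ∀ c c' : G, (c⁻¹ * c') * g = g * (c⁻¹ * c') →
            gp (c • x) (c • ε • x) (c' • x) ≤ b := by
          intro c c' hcc
          have h5 : gp (c • x) (c • ε • x) (c' • x) = gp x (ε • x) ((c⁻¹ * c') • x) := by
            have := gp_smul hi c x (ε • x) ((c⁻¹ * c') • x)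
            rw [← this]
            congr 1
            rw [← mul_smul]; congr 1; group
          rw [h5]
          exact hε _ hcc
        obtain ⟨k1, k2⟩ := key hδ (o := x) (Z := z • x) (hl c₁) (hl c₂) (h2 c₁ hv12) (h2 c₂ hv2)
          (h3 c₁ v₁ hz1 hv11) (h3 c₂ v hz2 hv1) (h4 c₁ c₂ hcomm) (h4 c₂ c₁ hcomm') hNb hbnn
        show dist x ((c₁⁻¹ * c₂) • x) ≤ 6 * b + 6 * δ + 1 ∧
          dist (ε • x) ((c₁⁻¹ * c₂) • ε • x) ≤ 6 * b + 6 * δ + 1
        constructor
        · rw [mul_smul, dist_comm, dist_inv hi, dist_comm]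
          linarith
        · rw [mul_smul, dist_comm, dist_inv hi, dist_comm]
          linarith
      · intro v _ v' _ heq
        simp only at heq
        have h1 := mul_left_cancel heq
        have h2 := mul_right_cancel h1
        have h3 := mul_left_cancel h2
        exact inv_injective h3
    have hsub : {v : G | z * v⁻¹ * (e v)⁻¹ ∈ {c : G | c * g = g * c}} ⊆
        {v : G | gp x (e₂ • x) (v • x) ≤ b ∧ (z * v⁻¹ * e₁⁻¹) * g = g * (z * v⁻¹ * e₁⁻¹)} ∪
        {v : G | gp x (e₁ • x) (v • x) ≤ b ∧ (z * v⁻¹ * e₂⁻¹) * g = g * (z * v⁻¹ * e₂⁻¹)} := by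
      intro v hv
      have hv' : (z * v⁻¹ * (e v)⁻¹) * g = g * (z * v⁻¹ * (e v)⁻¹) := hv
      rcases he v with h | h
      · left
        rw [h.1] at hv'
        exact ⟨h.2, hv'⟩
      · right
        rw [h.1] at hv'
        exact ⟨h.2, hv'⟩
    have hm1 := main e₁ e₂ (fun a h => hbp _ a h) hde₁ (by rw [he₁, he₂, zpow_neg])
    have hm2 := main e₂ e₁ (fun a h => hbp _ a h) hde₂ (by rw [he₁, he₂, zpow_neg, inv_inv])
    calc {v : G | z * v⁻¹ * (e v)⁻¹ ∈ {c : G | c * g = g * c}}.encard ≤ _ :=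
          Set.encard_le_encard hsub
      _ ≤ _ := Set.encard_union_le _ _
      _ ≤ N₀ + N₀ := add_le_add hm1 hm2
      _ = ((N₀ + N₀ : ℕ) : ℕ∞) := by push_cast; rfl

end act

section alg

variable {G : Type*} [Group G]

/-- The elements which commensurate all conjugates of `f` form a finite set. -/
lemma finite_bad (hnvc : ¬ ∃ H : Subgroup G, H.FiniteIndex ∧ IsCyclic H) {f : G}
    (hf : FinCom f) (hfi : InfOrd f) : {k : G | ∀ g : G, Com f (g⁻¹ * k * g)}.Finite := by
  let K : Subgroup G :=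
    { carrier := {k | ∀ g : G, Com f (g⁻¹ * k * g)}
      one_mem' := by
        intro g
        simpa using com_zpow f 0
      mul_mem' := by
        intro a b ha hb g
        have := (ha g).mul (hb g)
        convert this using 1
        group
      inv_mem' := by
        intro a ha g
        have := (ha g).inv
        convert this using 1
        group }
  by_contra hinf
  have hKset : (K : Set G).Infinite := hinf
  obtain ⟨k₁, h1, k₂, h2, -, n, hn, h⟩ := hf.infinite hKset
    (by intro k hk; simpa using hk 1)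
  have hfn : f ^ n ∈ K := by rw [← h]; exact K.mul_mem h1 (K.inv_mem h2)
  have hall : ∀ g : G, Com f g := by
    intro g
    have h3 : Com f (g⁻¹ * f ^ n * g) := hfn g
    have h4 : InfOrd (g⁻¹ * f ^ n * g) := by
      have := (hfi.zpow hn).conj g⁻¹
      rwa [inv_inv] at this
    obtain ⟨m, l, hm, hl, h5⟩ := hf.common h4 h3
    have h6 : (g⁻¹ * f ^ n * g) ^ m = g⁻¹ * (f ^ n) ^ m * g := by
      have := conj_zpow (a := g⁻¹) (b := f ^ n) (i := m)
      rwa [inv_inv] at this
    rw [h6, ← zpow_mul] at h5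
    have h7 : Com f g⁻¹ := ⟨n * m, l, mul_ne_zero hn hm, hl, by rw [inv_inv]; exact h5⟩
    simpa using h7.inv
  obtain ⟨T, hT, hTg⟩ := hf
  apply hnvc
  refine ⟨Subgroup.zpowers f, ?_, inferInstance⟩
  have : Finite (G ⧸ Subgroup.zpowers f) := by
    have hTf : Finite T := hT.to_subtype
    refine Finite.of_surjective
      (fun t : T => (QuotientGroup.mk ((t : G)⁻¹) : G ⧸ Subgroup.zpowers f)) ?_
    intro q
    obtain ⟨g, rfl⟩ := QuotientGroup.mk_surjective q
    obtain ⟨i, t, ht, hgt⟩ := hTg g⁻¹ (hall _)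
    refine ⟨⟨t, ht⟩, ?_⟩
    rw [QuotientGroup.eq]
    refine ⟨-i, ?_⟩
    have : g = t⁻¹ * f ^ (-i) := by
      rw [← inv_inv g, hgt]; group
    rw [this]; simp only; group
  exact Subgroup.finiteIndex_of_finite_quotient

end alg

/-- Outside of a finite set all elements have thin centralizers. -/
theorem exists_thin {G X : Type*} [Group G] [MetricSpace X] [MulAction G X]
    (hi : Isom G X) {δ : ℝ} (hδ : FourPt X δ) (ha : Acylin G X)
    (hnvc : ¬ ∃ H : Subgroup G, H.FiniteIndex ∧ IsCyclic H) {f : G} (hf : Lox X f) :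
    ∃ K : Finset G, ∀ g, g ∉ K → Thin {c : G | c * g = g * c} := by
  have hfin := finite_bad hnvc (hf.finCom hi hδ ha) (hf.infOrd hi)
  refine ⟨hfin.toFinset, fun g hg => ?_⟩
  rw [Set.Finite.mem_toFinset] at hg
  have : ∃ u : G, ¬ Com f (u⁻¹ * g * u) := by
    by_contra hcon
    push Not at hcon
    exact hg hcon
  obtain ⟨u, hu⟩ := this
  refine thin_centralizer hi hδ ha (hf.conj hi u) ?_
  rw [Com.conj_iff]
  exact hu

end Pool.Agent.K9h89.TD.Geo
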