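import Pool.Agent.W626.AH.Stm
import Pool.Agent.W293.AH.Lox
import Pool.Agent.W155.AH.Jd
import Pool.Agent.W585.AH.Exl
import Pool.Agent.K9h89.TD.Geom

/-!
# Acylindrically hyperbolic groups have thin centralizers outside of a finite set
-/

set_option autoImplicit false

namespace Pool.Agent.K9h89.TD

open Pool.Agent.W626.AH Pool.Agent.H67R3.RHDefs

/-- Existence of loxodromic elements. -/
theorem exists_lox {G S : Type} [Group G] [MetricSpace S] [MulAction G S]
    (hiso : ∀ (g : G) (x y : S), dist (g • x) (g • y) = dist x y)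
    (hgeo : IsGeodesic S) (hhyp : IsHyperbolic S) (hacy : IsAcylindrical G S)
    (hunb : ∃ x : S, ∀ B : ℝ, ∃ g : G, B < dist x (g • x)) :
    ∃ f : G, Pool.Agent.H322R3.Acyl.Lox S f := by
  obtain ⟨δ, hδ⟩ := hhyp
  obtain ⟨s, hunb⟩ := hunb
  set D : ℝ := max δ 0 + 1 with hD
  have hm0 : 0 ≤ max δ 0 := le_max_right _ _
  have hDpos : 0 < D := by linarith
  set lam : ℝ := 1 / D with hlam
  have hl : 0 < lam := by positivity
  have hlD : lam * D = 1 := by rw [hlam]; field_simp
  have hl1 : ∀ t : ℝ, t ≤ D → lam * t ≤ 1 := by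
    intro t ht
    rw [← hlD]
    exact mul_le_mul_of_nonneg_left ht hl.le
  let d : S → S → ℝ := fun x y => lam * dist x y
  have hPD : PD d := by
    refine ⟨fun x => ?_, fun x y => ?_, fun x y z => ?_⟩
    · show lam * dist x x = 0
      rw [dist_self, mul_zero]
    · show lam * dist x y = lam * dist y x
      rw [dist_comm]
    · show lam * dist x z ≤ lam * dist x y + lam * dist y z
      rw [← mul_add]
      exact mul_le_mul_of_nonneg_left (dist_triangle x y z) hl.le
  have hH1 : H1 d := by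
    intro x y z w
    show lam * dist x y + lam * dist z w ≤ max (lam * dist x z + lam * dist y w)
      (lam * dist x w + lam * dist y z) + 1
    rw [← mul_add, ← mul_add, ← mul_add, ← mul_max_of_nonneg _ _ hl.le]
    have h1 := mul_le_mul_of_nonneg_left (hδ x y z w) hl.le
    have h2 := hl1 δ (by have := le_max_left δ 0; linarith)
    rw [mul_add lam (max _ _) δ] at h1
    linarith
  have hMid : Mid d := by
    intro x y u v hu huv hv
    have hv' : v / lam ≤ dist x y := by
      rw [div_le_iff₀ hl, mul_comm]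
      exact hv
    have huv' : u / lam ≤ v / lam := div_le_div_of_nonneg_right huv hl.le
    have hu' : 0 ≤ u / lam := div_nonneg hu hl.le
    obtain ⟨γ, h0, h1, h2⟩ := hgeo x y
    have e1 := h2 0 (u / lam) le_rfl hu' (huv'.trans hv')
    have e2 := h2 0 (v / lam) le_rfl (hu'.trans huv') hv'
    have e3 := h2 (u / lam) (dist x y) hu' (huv'.trans hv') le_rfl
    have e4 := h2 (v / lam) (dist x y) (hu'.trans huv') hv' le_rfl
    have e5 := h2 (u / lam) (v / lam) hu' huv' hv'
    rw [h0] at e1 e2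
    rw [h1] at e3 e4
    refine ⟨γ (u / lam), γ (v / lam), ?_, ?_, ?_, ?_, ?_⟩
    · show lam * dist x (γ (u / lam)) = u
      rw [e1]; field_simp; ring
    · show lam * dist (γ (u / lam)) y = lam * dist x y - u
      rw [e3]; field_simp
    · show lam * dist x (γ (v / lam)) = v
      rw [e2]; field_simp; ring
    · show lam * dist (γ (v / lam)) y = lam * dist x y - v
      rw [e4]; field_simp
    · show lam * dist (γ (u / lam)) (γ (v / lam)) = v - u
      rw [e5]; field_simp
  have hIsom : Isom G d := by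
    intro g x y
    show lam * dist (g • x) (g • y) = lam * dist x y
    rw [hiso]
  have hAcy : Acy G d := by
    intro ε hε
    obtain ⟨R, N, h⟩ := hacy (ε / lam) (div_pos hε hl)
    refine ⟨lam * R, N, fun x y hxy => ?_⟩
    have hxy' : R ≤ dist x y := le_of_mul_le_mul_left hxy hl
    have h3 := h x y hxy'
    have e : {g : G | d x (g • x) ≤ ε ∧ d y (g • y) ≤ ε} =
        {g : G | dist x (g • x) ≤ ε / lam ∧ dist y (g • y) ≤ ε / lam} := by
      ext g
      show (lam * dist x (g • x) ≤ ε ∧ lam * dist y (g • y) ≤ ε) ↔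
        (dist x (g • x) ≤ ε / lam ∧ dist y (g • y) ≤ ε / lam)
      rw [le_div_iff₀ hl, le_div_iff₀ hl, mul_comm lam, mul_comm lam]
    rw [e]
    exact h3
  have hUnb : Unb G d := by
    refine ⟨s, fun B => ?_⟩
    obtain ⟨g, hg⟩ := hunb (B / lam)
    refine ⟨g, ?_⟩
    show B < lam * dist s (g • s)
    rw [div_lt_iff₀ hl, mul_comm] at hg
    exact hg
  have hexl := Pool.Agent.W585.AH.Exl.main (Pool.Agent.W155.AH.Jd.main
    Pool.Agent.W293.AH.Lox.main)
  obtain ⟨g, x, c, B, hc, hg⟩ := hexl G S d hPD hH1 hMid hIsom hAcy hUnb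
  refine ⟨g, x, c / lam, by positivity, fun n => ?_⟩
  -- `n c ≤ lam * dist x (g ^ n x)`
  have hg' : ∀ k : ℕ, c * k - B ≤ lam * dist x (g ^ k • x) := hg
  have hsub : ∀ k : ℕ, dist x (g ^ (n * k) • x) ≤ k * dist x (g ^ n • x) := by
    intro k
    have := Pool.Agent.H322R3.Acyl.pow_le (X := S) hiso (g ^ n) x k
    rwa [← pow_mul] at this
  rw [div_mul_eq_mul_div, div_le_iff₀ hl]
  by_contra hcon
  push Not at hcon
  set η := c * n - dist x (g ^ n • x) * lam with hη
  have hηpos : 0 < η := by linarith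
  obtain ⟨k, hk⟩ := exists_nat_gt (B / η)
  rw [div_lt_iff₀ hηpos] at hk
  have h1 := hg' (n * k)
  have h2 := mul_le_mul_of_nonneg_left (hsub k) hl.le
  push_cast at h1
  nlinarith

/-- In an acylindrically hyperbolic group all elements outside of a finite set have thin
centralizers. -/
theorem thin_of_ah {G : Type} [Group G] (hG : AcylindricallyHyperbolic G) :
    ∃ K : Finset G, ∀ g, g ∉ K → Thin {c : G | c * g = g * c} := by
  obtain ⟨hnvc, S, i1, i2, hiso, hgeo, hhyp, hacy, hunb⟩ := hG
  obtain ⟨f, hf⟩ := exists_lox hiso hgeo hhyp hacy hunb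
  obtain ⟨δ, hδ⟩ := hhyp
  refine Geo.exists_thin (X := S) hiso (δ := δ / 2) ?_ ?_ ?_ hf
  · intro x y z w
    have := hδ x y z w
    linarith
  · intro ε hε
    obtain ⟨R, N, h⟩ := hacy ε hε
    refine ⟨R, N, fun x y hxy => ?_⟩
    have h1 := h x y hxy
    have h2 := Set.finite_of_encard_le_coe h1
    refine ⟨h2, ?_⟩
    rw [← h2.cast_ncard_eq] at h1
    exact_mod_cast h1
  · rintro ⟨H, h1, h2⟩
    exact hnvc ⟨H, h2, h1⟩

end Pool.Agent.K9h89.TD
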