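import Pool.Agent.K9h89.TD.Prod
import Pool.Agent.K9h89.TD.Lox

/-!
# Word metrics on direct products
-/

set_option autoImplicit false

namespace Pool.Agent.K9h89.TDU

open Filter Pool.Agent.K9h89.TD Pool.Agent.K9h89.TD.GLen Pool.Agent.H322R3.Hyp
open Pool.Agent.W626.AH Pool.Agent.H67R3.RHDefs

/-- An acylindrically hyperbolic group contains an infinite thin subset. -/
theorem thin_infinite_of_ah {A : Type} [Group A] (hA : AcylindricallyHyperbolic A) :
    ∃ C : Set A, Thin C ∧ C.Infinite := by
  obtain ⟨K, hK⟩ := thin_of_ah hA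
  obtain ⟨_, S, i1, i2, hiso, hgeo, hhyp, hacy, hunb⟩ := hA
  obtain ⟨f, x, c, hc, hf⟩ := exists_lox hiso hgeo hhyp hacy hunb
  have hinj : Function.Injective (fun n : ℕ => f ^ n) := by
    have key : ∀ a b : ℕ, a ≤ b → f ^ a = f ^ b → a = b := by
      intro a b hab heq
      obtain ⟨d, rfl⟩ := Nat.exists_eq_add_of_le hab
      have h1 : f ^ d = 1 := by
        rw [pow_add] at heq
        exact (left_eq_mul.mp heq)
      have h2 := hf d
      rw [h1, one_smul, dist_self] at h2
      have h3 : (d : ℝ) ≤ 0 := by
        by_contra hcon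
        push Not at hcon
        have := mul_pos hc hcon
        linarith
      have h4 : d = 0 := by exact_mod_cast le_antisymm h3 (Nat.cast_nonneg d)
      omega
    intro a b hab
    rcases le_total a b with h | h
    · exact key a b h hab
    · exact (key b a h hab.symm).symm
  have hinf : (Set.range (fun n : ℕ => f ^ n)).Infinite := Set.infinite_range_of_injective hinj
  obtain ⟨g, ⟨k, rfl⟩, hg⟩ := hinf.exists_notMem_finset K
  refine ⟨_, hK _ hg, hinf.mono ?_⟩
  rintro _ ⟨j, rfl⟩
  show f ^ j * f ^ k = f ^ k * f ^ j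
  rw [← pow_add, ← pow_add, add_comm]

section words

variable {Γ V H : Type*} [Group Γ] [Group V] [Group H] [DecidableEq V] [DecidableEq H]
  (e : Γ ≃* V × H) {X : Finset Γ} (hX : Subgroup.closure (X : Set Γ) = ⊤)
  (hs : ∀ g ∈ X, (e g).1 = 1 ∨ (e g).2 = 1)

open Classical in
/-- the generators in the first factor -/
noncomputable def XV : Finset V := (X.filter (fun g => (e g).2 = 1)).image (fun g => (e g).1)

open Classical in
/-- the generators in the second factor -/
noncomputable def XH : Finset H := (X.filter (fun g => (e g).1 = 1)).image (fun g => (e g).2)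

include hX hs in
theorem closures : Subgroup.closure ((XV e (X := X) : Finset V) : Set V) = ⊤ ∧
    Subgroup.closure ((XH e (X := X) : Finset H) : Set H) = ⊤ := by
  classical
  have key : ∀ g : Γ, (e g).1 ∈ Subgroup.closure ((XV e (X := X) : Finset V) : Set V) ∧
      (e g).2 ∈ Subgroup.closure ((XH e (X := X) : Finset H) : Set H) := by
    intro g
    have hg : g ∈ Subgroup.closure (X : Set Γ) := by rw [hX]; trivial
    induction hg using Subgroup.closure_induction with
    | mem x hx =>
      rcases hs x hx with h | h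
      · refine ⟨by rw [h]; exact one_mem _, Subgroup.subset_closure ?_⟩
        rw [Finset.mem_coe, XH, Finset.mem_image]
        exact ⟨x, Finset.mem_filter.mpr ⟨hx, h⟩, rfl⟩
      · refine ⟨Subgroup.subset_closure ?_, by rw [h]; exact one_mem _⟩
        rw [Finset.mem_coe, XV, Finset.mem_image]
        exact ⟨x, Finset.mem_filter.mpr ⟨hx, h⟩, rfl⟩
    | one => rw [map_one]; exact ⟨one_mem _, one_mem _⟩
    | mul x y _ _ h1 h2 =>
      rw [map_mul]
      exact ⟨mul_mem h1.1 h2.1, mul_mem h1.2 h2.2⟩
    | inv x _ h1 =>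
      rw [map_inv]
      exact ⟨inv_mem h1.1, inv_mem h1.2⟩
  constructor
  · rw [eq_top_iff]
    intro v _
    have := (key (e.symm (v, 1))).1
    rwa [MulEquiv.apply_symm_apply] at this
  · rw [eq_top_iff]
    intro v _
    have := (key (e.symm (1, v))).2
    rwa [MulEquiv.apply_symm_apply] at this

include hX hs in
theorem wlen_prod (g : Γ) : wlen (X : Set Γ) g =
    wlen ((XV e (X := X) : Finset V) : Set V) (e g).1 +
      wlen ((XH e (X := X) : Finset H) : Set H) (e g).2 := by
  classical
  obtain ⟨cV, cH⟩ := closures e hX hs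
  apply le_antisymm
  · obtain ⟨l₁, a1, a2, a3⟩ := wlen_spec cV (e g).1
    obtain ⟨l₂, b1, b2, b3⟩ := wlen_spec cH (e g).2
    set i₁ : V →* Γ := e.symm.toMonoidHom.comp (MonoidHom.inl V H) with hi₁
    set i₂ : H →* Γ := e.symm.toMonoidHom.comp (MonoidHom.inr V H) with hi₂
    have hprod : (l₁.map i₁ ++ l₂.map i₂).prod = g := by
      rw [List.prod_append, ← map_list_prod, ← map_list_prod, a3, b3]
      apply e.injective
      rw [map_mul]
      show e (e.symm ((e g).1, 1)) * e (e.symm (1, (e g).2)) = e g
      rw [MulEquiv.apply_symm_apply, MulEquiv.apply_symm_apply]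
      ext <;> simp
    have hlet : ∀ x ∈ l₁.map i₁ ++ l₂.map i₂, x ∈ (X : Set Γ) ∨ x⁻¹ ∈ (X : Set Γ) := by
      have c1 : ∀ v : V, v ∈ ((XV e (X := X) : Finset V) : Set V) → i₁ v ∈ (X : Set Γ) := by
        intro v hv
        rw [Finset.mem_coe, XV, Finset.mem_image] at hv
        obtain ⟨x, hx, rfl⟩ := hv
        rw [Finset.mem_filter] at hx
        have : i₁ (e x).1 = x := by
          apply e.injective
          show e (e.symm ((e x).1, 1)) = e x
          rw [MulEquiv.apply_symm_apply, ← hx.2]
        rw [this]; exact hx.1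
      have c2 : ∀ v : H, v ∈ ((XH e (X := X) : Finset H) : Set H) → i₂ v ∈ (X : Set Γ) := by
        intro v hv
        rw [Finset.mem_coe, XH, Finset.mem_image] at hv
        obtain ⟨x, hx, rfl⟩ := hv
        rw [Finset.mem_filter] at hx
        have : i₂ (e x).2 = x := by
          apply e.injective
          show e (e.symm (1, (e x).2)) = e x
          rw [MulEquiv.apply_symm_apply, ← hx.2]
        rw [this]; exact hx.1
      intro x hx
      rw [List.mem_append, List.mem_map, List.mem_map] at hx
      rcases hx with ⟨v, hv, rfl⟩ | ⟨v, hv, rfl⟩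
      · rcases a2 v hv with h | h
        · exact Or.inl (c1 v h)
        · right; rw [← map_inv]; exact c1 _ h
      · rcases b2 v hv with h | h
        · exact Or.inl (c2 v h)
        · right; rw [← map_inv]; exact c2 _ h
    have := wlen_le (S := (X : Set Γ)) _ hlet
    rw [hprod, List.length_append, List.length_map, List.length_map] at this
    omega
  · obtain ⟨l, a1, a2, a3⟩ := wlen_spec hX g
    have key : ∀ l : List Γ, (∀ x ∈ l, x ∈ (X : Set Γ) ∨ x⁻¹ ∈ (X : Set Γ)) →
        wlen ((XV e (X := X) : Finset V) : Set V) (e l.prod).1 +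
          wlen ((XH e (X := X) : Finset H) : Set H) (e l.prod).2 ≤ l.length := by
      intro l
      induction l with
      | nil => intro _; simp [wlen_one]
      | cons x l ih =>
        intro hl
        have h1 := ih (fun y hy => hl y (List.mem_cons_of_mem _ hy))
        have hx : wlen ((XV e (X := X) : Finset V) : Set V) (e x).1 +
            wlen ((XH e (X := X) : Finset H) : Set H) (e x).2 ≤ 1 := by
          have aux : ∀ y ∈ X, wlen ((XV e (X := X) : Finset V) : Set V) (e y).1 +
            wlen ((XH e (X := X) : Finset H) : Set H) (e y).2 ≤ 1 := by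
            intro y hy
            rcases hs y hy with h | h
            · have h2 : (e y).2 ∈ ((XH e (X := X) : Finset H) : Set H) := by
                rw [Finset.mem_coe, XH, Finset.mem_image]
                exact ⟨y, Finset.mem_filter.mpr ⟨hy, h⟩, rfl⟩
              have h3 := wlen_le (S := ((XH e (X := X) : Finset H) : Set H)) [(e y).2]
                (by intro z hz; rw [List.mem_singleton] at hz; rw [hz]; exact Or.inl h2)
              rw [h, wlen_one]
              simpa using h3
            · have h2 : (e y).1 ∈ ((XV e (X := X) : Finset V) : Set V) := by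
                rw [Finset.mem_coe, XV, Finset.mem_image]
                exact ⟨y, Finset.mem_filter.mpr ⟨hy, h⟩, rfl⟩
              have h3 := wlen_le (S := ((XV e (X := X) : Finset V) : Set V)) [(e y).1]
                (by intro z hz; rw [List.mem_singleton] at hz; rw [hz]; exact Or.inl h2)
              rw [h, wlen_one]
              simpa using h3
          rcases hl x (by simp) with h | h
          · exact aux x h
          · have h2 := aux _ h
            rw [map_inv, Prod.fst_inv, Prod.snd_inv, wlen_inv cV, wlen_inv cH] at h2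
            exact h2
        rw [List.prod_cons, map_mul, Prod.fst_mul, Prod.snd_mul, List.length_cons]
        have h2 := wlen_mul_le cV (e x).1 (e l.prod).1
        have h3 := wlen_mul_le cH (e x).2 (e l.prod).2
        omega
    have := key l a2
    rw [a3] at this
    omega

end words

/-- The result for word metrics. -/
theorem final {V : Type*} [Group V] {ι : Type} [Fintype ι] (A : ι → Type) [∀ i, Group (A i)]
    (hA : ∀ i, Finite (A i) ∨ AcylindricallyHyperbolic (A i))
    (hA' : ∃ i, AcylindricallyHyperbolic (A i))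
    {Γ : Type*} [Group Γ] (e : Γ ≃* V × (∀ i, A i)) (X : Finset Γ)
    (hX : Subgroup.closure (X : Set Γ) = ⊤) (hs : ∀ g ∈ X, (e g).1 = 1 ∨ (e g).2 = 1)
    (hsub : ∀ (Y : Finset V) (c : ℝ), 1 < c →
      ∃ C : ℝ, ∀ n, (Nat.card (Ball Y n) : ℝ) ≤ C * c ^ n) (φ : Γ →* Γ) :
    Tendsto (tdcSeq X φ) atTop (nhds 0) := by
  classical
  obtain ⟨cV, cH⟩ := closures e hX hs
  have hK : ∀ i, ∃ K : Finset (A i), ∀ g, g ∉ K → Thin {c : A i | c * g = g * c} := by
    intro i
    rcases hA i with h | h
    · have := Fintype.ofFinite (A i)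
      exact ⟨Finset.univ, fun g hg => absurd (Finset.mem_univ g) hg⟩
    · exact thin_of_ah h
  choose K hK using hK
  obtain ⟨i₀, hi₀⟩ := hA'
  obtain ⟨C, hC, hCinf⟩ := thin_infinite_of_ah hi₀
  have hinf : Infinite (∀ i, A i) := by
    have : Infinite (A i₀) := Set.infinite_univ_iff.mp (hCinf.mono (Set.subset_univ _))
    exact Infinite.of_injective (Pi.mulSingle i₀) (Pi.mulSingle_injective i₀)
  have hH := glen_wlen cH
  have hV := glen_wlen cV
  obtain ⟨L, hL, hg⟩ := growth hH (Pi.evalMonoidHom A i₀) (MonoidHom.mulSingle A i₀)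
    (fun a => by simp) hC hCinf
  refine prod_tendsto hV hH K hK ?_ hL hg e φ (Ball X) ?_
  · intro c hc
    obtain ⟨C', hC'⟩ := hsub (XV e (X := X)) c hc
    refine ⟨C', fun n => ?_⟩
    have h1 : Nat.card (Ball (XV e (X := X)) n) = hV.f n := by
      have h2 : ∀ g, g ∈ Ball (XV e (X := X)) n ↔ g ∈ hV.B n := by
        intro g
        rw [mem_Ball_iff cV, hV.mem_B]
      rw [Nat.card_congr (Equiv.subtypeEquivRight h2), Nat.card_eq_fintype_card,
        Fintype.card_coe, GLen.f]
    rw [← h1]
    exact hC' n
  · intro n g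
    rw [mem_Ball_iff hX, wlen_prod e hX hs g]

end Pool.Agent.K9h89.TDU
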