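import Pool.Agent.K9h89.TD.MainU

/-!
# Uniform exponential growth from thin infinite subsets; the sum over the direct factor
-/

set_option autoImplicit false

namespace Pool.Agent.K9h89.TDU

open Filter Pool.Agent.K9h89.TD Pool.Agent.K9h89.TD.GLen

theorem growth {G A : Type*} [Group G] [Group A] {ℓ : G → ℕ} (h : GLen ℓ) (p : G →* A)
    (s : A →* G) (hps : ∀ a, p (s a) = a) {C : Set A} (hC : Thin C) (hinf : C.Infinite) :
    ∃ L : ℕ, 0 < L ∧ ∀ n, 2 * h.f n ≤ h.f (n + L) := by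
  classical
  obtain ⟨E, e, M, hE, he, hM⟩ := hC
  obtain ⟨C', hC', hcard⟩ := hinf.exists_subset_card_eq (2 * (M + 1))
  obtain ⟨K₀, hK₀⟩ : ∃ K₀, ∀ v, ℓ (s (e v)) ≤ K₀ := by
    obtain ⟨K₀, hK₀⟩ := (hE.image (fun a => ℓ (s a))).bddAbove
    exact ⟨K₀, fun v => hK₀ ⟨_, he v, rfl⟩⟩
  obtain ⟨K₁, hK₁⟩ : ∃ K₁, ∀ c ∈ C', ℓ (s c) ≤ K₁ :=
    ⟨C'.sup (fun c => ℓ (s c)), fun c hc => Finset.le_sup (f := fun c => ℓ (s c)) hc⟩
  refine ⟨K₁ + K₀ + 1, by omega, fun n => ?_⟩
  have key : (C' ×ˢ h.B n).card ≤ M * (h.B (n + (K₁ + K₀ + 1))).card := by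
    refine Finset.card_le_mul_card_image_of_maps_to
      (f := fun q : A × G => s q.1 * s (e (p q.2)) * q.2) ?_ M ?_
    · rintro ⟨c, v⟩ hq
      rw [Finset.mem_product, h.mem_B] at hq
      rw [h.mem_B]
      have h1 := h.mul (s c * s (e (p v))) v
      have h2 := h.mul (s c) (s (e (p v)))
      have h3 := hK₁ c hq.1
      have h4 := hK₀ (p v)
      have h5 : ℓ v ≤ n := hq.2
      show ℓ (s c * s (e (p v)) * v) ≤ _
      omega
    · intro z _
      have hfin : {v : A | p z * v⁻¹ * (e v)⁻¹ ∈ C}.Finite :=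
        Set.finite_of_encard_le_coe (hM (p z))
      have hle : hfin.toFinset.card ≤ M := by
        have h1 := hM (p z)
        rw [hfin.encard_eq_coe_toFinset_card] at h1
        exact_mod_cast h1
      refine le_trans ?_ hle
      have hpz : ∀ q : A × G, s q.1 * s (e (p q.2)) * q.2 = z →
          p z * (p q.2)⁻¹ * (e (p q.2))⁻¹ = q.1 := by
        rintro ⟨c, v⟩ hq
        rw [← hq]
        simp only [map_mul, hps]
        group
      refine Finset.card_le_card_of_injOn (fun q => p q.2) ?_ ?_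
      · rintro ⟨c, v⟩ hq
        simp only [Finset.coe_filter, Set.mem_ofPred_eq, Finset.mem_product] at hq
        rw [Finset.mem_coe, Set.Finite.mem_toFinset]
        show p z * (p v)⁻¹ * (e (p v))⁻¹ ∈ C
        rw [hpz (c, v) hq.2]
        exact hC' hq.1.1
      · rintro ⟨c, v⟩ hq ⟨c', v'⟩ hq' heq
        simp only [Finset.coe_filter, Set.mem_ofPred_eq, Finset.mem_product] at hq hq' heq
        have e1 := hpz (c, v) hq.2
        have e2 := hpz (c', v') hq'.2
        simp only at e1 e2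
        rw [heq] at e1
        have hc : c = c' := by rw [← e1, ← e2]
        subst hc
        have : s c * s (e (p v)) * v = s c * s (e (p v)) * v' := by
          rw [hq.2, heq, hq'.2]
        rw [mul_left_cancel this]
  rw [Finset.card_product, hcard] at key
  have key' : 2 * (M + 1) * h.f n ≤ M * h.f (n + (K₁ + K₀ + 1)) := key
  have h2 : (M + 1) * (2 * h.f n) ≤ (M + 1) * h.f (n + (K₁ + K₀ + 1)) := by
    calc (M + 1) * (2 * h.f n) = 2 * (M + 1) * h.f n := by ring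
      _ ≤ M * h.f (n + (K₁ + K₀ + 1)) := key'
      _ ≤ _ := Nat.mul_le_mul_right _ (by omega)
  exact Nat.le_of_mul_le_mul_left h2 (by omega)

/-- exponential decay in the radius -/
theorem decay {G : Type*} [Group G] {ℓ : G → ℕ} (h : GLen ℓ) {L : ℕ} (hL : 0 < L)
    (hg : ∀ n, 2 * h.f n ≤ h.f (n + L)) :
    ∃ θ : ℝ, 0 < θ ∧ θ < 1 ∧ ∀ n k, (h.f n : ℝ) ≤ 2 * θ ^ k * h.f (n + k) := by
  have h1 : ∀ q n, 2 ^ q * h.f n ≤ h.f (n + q * L) := by
    intro q
    induction q with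
    | zero => intro n; simp
    | succ q ih =>
      intro n
      calc 2 ^ (q + 1) * h.f n = 2 ^ q * (2 * h.f n) := by ring
        _ ≤ 2 ^ q * h.f (n + L) := Nat.mul_le_mul_left _ (hg n)
        _ ≤ h.f (n + L + q * L) := ih (n + L)
        _ = _ := by congr 1; ring
  set θ : ℝ := (1 / 2 : ℝ) ^ (1 / (L : ℝ)) with hθ
  have hL' : (0 : ℝ) < L := by exact_mod_cast hL
  have hθ0 : 0 < θ := Real.rpow_pos_of_pos (by norm_num) _
  have hθ1 : θ < 1 := Real.rpow_lt_one (by norm_num) (by norm_num) (by positivity)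
  have hθL : θ ^ L = 1 / 2 := by
    rw [hθ, one_div (L : ℝ)]
    exact Real.rpow_inv_natCast_pow (by norm_num) hL.ne'
  refine ⟨θ, hθ0, hθ1, fun n k => ?_⟩
  have h2 : 2 ^ (k / L) * h.f n ≤ h.f (n + k) :=
    (h1 (k / L) n).trans (h.f_mono (by have := Nat.div_mul_le_self k L; omega))
  have h3 : (2 : ℝ) ^ (k / L) * h.f n ≤ h.f (n + k) := by exact_mod_cast h2
  have h4 : θ ^ (L * (k / L) + L) ≤ θ ^ k := by
    refine pow_le_pow_of_le_one hθ0.le hθ1.le ?_
    have h5 := Nat.div_add_mod k L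
    have h6 := Nat.mod_lt k hL
    omega
  have h5 : θ ^ (L * (k / L) + L) = (1 / 2 : ℝ) ^ (k / L) * (1 / 2) := by
    rw [pow_add, pow_mul, hθL]
  have h6 : (1 / 2 : ℝ) ^ (k / L) ≤ 2 * θ ^ k := by
    rw [h5] at h4; linarith
  have h7 : (1 / 2 : ℝ) ^ (k / L) * (2 : ℝ) ^ (k / L) = 1 := by
    rw [← mul_pow]; norm_num
  have h8 : (0 : ℝ) ≤ h.f (n + k) := Nat.cast_nonneg _
  calc (h.f n : ℝ) = (1 / 2 : ℝ) ^ (k / L) * ((2 : ℝ) ^ (k / L) * h.f n) := by
        rw [← mul_assoc, h7, one_mul]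
    _ ≤ (1 / 2 : ℝ) ^ (k / L) * h.f (n + k) := mul_le_mul_of_nonneg_left h3 (by positivity)
    _ ≤ 2 * θ ^ k * h.f (n + k) := mul_le_mul_of_nonneg_right h6 h8

/-- summability over a group of subexponential growth -/
theorem summable_sub {V : Type*} [Group V] {m : V → ℕ} (hm : GLen m)
    (hsub : ∀ c : ℝ, 1 < c → ∃ C : ℝ, ∀ n, (hm.f n : ℝ) ≤ C * c ^ n) {θ : ℝ} (hθ0 : 0 < θ)
    (hθ1 : θ < 1) : Summable (fun a : V => θ ^ m a) := by
  classical
  obtain ⟨c, hc1, hc2⟩ : ∃ c : ℝ, 1 < c ∧ c * θ < 1 := by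
    refine ⟨(1 + 1 / θ) / 2, ?_, ?_⟩
    · have : 1 < 1 / θ := by rw [lt_div_iff₀ hθ0]; linarith
      linarith
    · field_simp
      linarith
  obtain ⟨C, hC⟩ := hsub c hc1
  have hC0 : 0 ≤ C := by
    have h1 := hC 0
    have h2 : (0 : ℝ) ≤ hm.f 0 := Nat.cast_nonneg _
    simp at h1
    linarith
  have hc0 : 0 < c := by linarith
  refine summable_of_sum_le (c := C * (1 - c * θ)⁻¹) (fun a => by positivity) fun s => ?_
  set N := s.sup m with hN
  have h1 : ∑ a ∈ s, θ ^ m a = ∑ n ∈ Finset.range (N + 1), ∑ a ∈ s with m a = n, θ ^ m a := by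
    rw [Finset.sum_fiberwise_of_maps_to]
    intro a ha
    rw [Finset.mem_range]
    have : m a ≤ N := Finset.le_sup (f := m) ha
    omega
  rw [h1]
  have h2 : ∀ n ∈ Finset.range (N + 1), ∑ a ∈ s with m a = n, θ ^ m a ≤ C * (c * θ) ^ n := by
    intro n _
    have h3 : ∑ a ∈ s with m a = n, θ ^ m a = ((s.filter (fun a => m a = n)).card : ℝ) * θ ^ n := by
      rw [Finset.sum_congr rfl (g := fun _ => θ ^ n) (by
        intro a ha
        rw [Finset.mem_filter] at ha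
        rw [ha.2]), Finset.sum_const, nsmul_eq_mul]
    have h4 : (s.filter (fun a => m a = n)).card ≤ hm.f n := by
      refine Finset.card_le_card ?_
      intro a ha
      rw [Finset.mem_filter] at ha
      rw [hm.mem_B, ha.2]
    have h5 : ((s.filter (fun a => m a = n)).card : ℝ) ≤ C * c ^ n :=
      le_trans (by exact_mod_cast h4) (hC n)
    rw [h3, mul_pow, ← mul_assoc]
    exact mul_le_mul_of_nonneg_right h5 (by positivity)
  refine (Finset.sum_le_sum h2).trans ?_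
  rw [← Finset.mul_sum]
  refine mul_le_mul_of_nonneg_left ?_ hC0
  have h6 := (hasSum_geometric_of_lt_one (r := c * θ) (by positivity) hc2)
  rw [← h6.tsum_eq]
  exact h6.summable.sum_le_tsum _ (fun _ _ => by positivity)

end Pool.Agent.K9h89.TDU
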