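import Pool.Agent.H322R3.HypDefs
import Pool.Agent.K9h89.TD.Main

/-!
# Word metrics and the twisted commutativity degree
-/

set_option autoImplicit false

namespace Pool.Agent.K9h89.TD

open Filter Pool.Agent.H322R3.Hyp

/-- The ball of radius `n` about the identity in the word metric of `X`: the products of at most
`n` elements of `X` and inverses of elements of `X`. -/
def Ball {G : Type*} [Group G] (X : Finset G) (n : ℕ) : Set G :=
  {g | ∃ l : List G, l.length ≤ n ∧ (∀ x ∈ l, x ∈ X ∨ x⁻¹ ∈ X) ∧ l.prod = g}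

/-- The proportion of the pairs `(x, y)` in the ball of radius `n` with `x y = y φ(x)`. -/
noncomputable def tdcSeq {G : Type*} [Group G] (X : Finset G) (φ : G →* G) (n : ℕ) : ℝ :=
  (Nat.card {p : G × G // p.1 ∈ Ball X n ∧ p.2 ∈ Ball X n ∧ p.1 * p.2 = p.2 * φ p.1} : ℝ) /
    (Nat.card (Ball X n) : ℝ) ^ 2

/-- The degree of twisted commutativity. -/
noncomputable def tdc {G : Type*} [Group G] (X : Finset G) (φ : G →* G) : ℝ :=
  limsup (tdcSeq X φ) atTop

section

variable {G : Type*} [Group G] {X : Finset G} (hX : Subgroup.closure (X : Set G) = ⊤)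
include hX

lemma mem_Ball_iff (n : ℕ) (g : G) : g ∈ Ball X n ↔ wlen (X : Set G) g ≤ n := by
  constructor
  · rintro ⟨l, h1, h2, rfl⟩
    exact (wlen_le l h2).trans h1
  · intro h
    obtain ⟨l, h1, h2, h3⟩ := wlen_spec hX g
    exact ⟨l, by omega, h2, h3⟩

lemma glen_wlen : GLen (wlen (X : Set G)) where
  one := wlen_one
  inv := wlen_inv hX
  mul := wlen_mul_le hX
  fin := by
    classical
    intro n
    induction n with
    | zero =>
      refine (Set.finite_singleton (1 : G)).subset ?_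
      intro g hg
      obtain ⟨l, h1, h2, h3⟩ := wlen_spec hX g
      have h0 : wlen (X : Set G) g = 0 := Nat.le_zero.mp hg
      rw [h0] at h1
      rw [List.length_eq_zero_iff.mp h1] at h3
      exact h3.symm
    | succ n ih =>
      set L : Set G := (X : Set G) ∪ (X : Set G)⁻¹ ∪ {1} with hL
      have hLf : L.Finite := (X.finite_toSet.union X.finite_toSet.inv).union (Set.finite_singleton _)
      refine (hLf.mul ih).subset ?_
      intro g hg
      have hg' : wlen (X : Set G) g ≤ n + 1 := hg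
      obtain ⟨l, h1, h2, h3⟩ := wlen_spec hX g
      cases l with
      | nil =>
        refine Set.mem_mul.mpr ⟨1, by simp [hL], 1, ?_, ?_⟩
        · show wlen (X : Set G) 1 ≤ n
          rw [wlen_one]; omega
        · rw [← h3]; simp
      | cons a l =>
        rw [List.prod_cons] at h3
        refine Set.mem_mul.mpr ⟨a, ?_, l.prod, ?_, h3⟩
        · rcases h2 a (by simp) with h | h
          · left; left; exact h
          · left; right; exact h
        · show wlen (X : Set G) l.prod ≤ n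
          have := wlen_le (S := (X : Set G)) l (fun x hx => h2 x (List.mem_cons_of_mem _ hx))
          rw [List.length_cons] at h1
          omega
  split := by
    intro y j
    obtain ⟨l, h1, h2, h3⟩ := wlen_spec hX y
    refine ⟨(l.take j).prod, (l.drop j).prod, ?_, ?_, ?_⟩
    · rw [← List.prod_append, List.take_append_drop, h3]
    · have := wlen_le (S := (X : Set G)) (l.take j) (fun x hx => h2 x (List.mem_of_mem_take hx))
      refine this.trans ?_
      rw [List.length_take]; omega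
    · have := wlen_le (S := (X : Set G)) (l.drop j) (fun x hx => h2 x (List.mem_of_mem_drop hx))
      refine this.trans ?_
      rw [List.length_drop]; omega

end

lemma GLen.transfer {G H : Type*} [Group G] [Group H] {ℓ : G → ℕ} (h : GLen ℓ) (e : H ≃* G) :
    GLen (fun x => ℓ (e x)) where
  one := by rw [map_one, h.one]
  inv g := by rw [map_inv, h.inv]
  mul g g' := by rw [map_mul]; exact h.mul _ _
  fin n := by
    have : {g : H | ℓ (e g) ≤ n} = e ⁻¹' {g | ℓ g ≤ n} := rfl
    rw [this]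
    exact (h.fin n).preimage e.injective.injOn
  split y j := by
    obtain ⟨w, s, h1, h2, h3⟩ := h.split (e y) j
    refine ⟨e.symm w, e.symm s, ?_, by simpa using h2, by simpa using h3⟩
    rw [← map_mul, ← h1, MulEquiv.symm_apply_apply]

/-- Abstract form of the count. -/
lemma card_pairs {Γ : Type*} [Group Γ] (B : Finset Γ) (φ : Γ →* Γ) (S : Set Γ)
    (hS : ∀ g, g ∈ S ↔ g ∈ B) [DecidableEq Γ] :
    Nat.card {p : Γ × Γ // p.1 ∈ S ∧ p.2 ∈ S ∧ p.1 * p.2 = p.2 * φ p.1} =
      ∑ x ∈ B, (B.filter (fun y => x * y = y * φ x)).card := by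
  have h1 : ∀ p : Γ × Γ, (p.1 ∈ S ∧ p.2 ∈ S ∧ p.1 * p.2 = p.2 * φ p.1) ↔
      p ∈ (B ×ˢ B).filter (fun p : Γ × Γ => p.1 * p.2 = p.2 * φ p.1) := by
    intro p
    rw [Finset.mem_filter, Finset.mem_product, hS, hS, and_assoc]
  rw [Nat.card_congr (Equiv.subtypeEquivRight h1), Nat.card_eq_fintype_card, Fintype.card_coe,
    Finset.card_filter, Finset.sum_product]
  refine Finset.sum_congr rfl fun x _ => ?_
  rw [Finset.card_filter]

lemma card_transfer {Γ H : Type*} [Group Γ] [Group H] [DecidableEq Γ] [DecidableEq H]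
    (e : Γ ≃* H) (B : Finset Γ) (B' : Finset H) (hB : ∀ g, e g ∈ B' ↔ g ∈ B) (φ : Γ →* Γ)
    (φ' : H →* H) (hφ : ∀ g, φ' (e g) = e (φ g)) :
    ∑ x ∈ B, (B.filter (fun y => x * y = y * φ x)).card =
      ∑ x ∈ B', (B'.filter (fun y => x * y = y * φ' x)).card := by
  refine Finset.sum_bij (fun x _ => e x) (fun x hx => (hB x).mpr hx)
    (fun x _ y _ h => e.injective h) (fun y hy => ?_) (fun x _ => ?_)
  · obtain ⟨x, rfl⟩ := e.surjective y
    exact ⟨x, (hB x).mp hy, rfl⟩
  · refine Finset.card_bij (fun y _ => e y) (fun y hy => ?_) (fun y _ z _ h => e.injective h)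
      (fun z hz => ?_)
    · rw [Finset.mem_filter] at hy ⊢
      refine ⟨(hB y).mpr hy.1, ?_⟩
      rw [hφ, ← map_mul, ← map_mul, hy.2]
    · obtain ⟨y, rfl⟩ := e.surjective z
      rw [Finset.mem_filter] at hz
      refine ⟨y, ?_, rfl⟩
      rw [Finset.mem_filter]
      refine ⟨(hB y).mp hz.1, ?_⟩
      have h2 := hz.2
      rw [hφ, ← map_mul, ← map_mul] at h2
      exact e.injective h2

/-- Passage from the products to length functions. -/
theorem tendsto_abstract {Γ : Type*} [Group Γ] [Infinite Γ] {ℓ : Γ → ℕ} (hΓ : GLen ℓ)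
    {ι : Type*} [Fintype ι] {A : ι → Type*}
    [∀ i, Group (A i)] (e : Γ ≃* (∀ i, A i)) {ℓ' : (∀ i, A i) → ℕ} (h : GLen ℓ')
    (hℓ : ∀ g, ℓ' (e g) = ℓ g) (K : ∀ i, Finset (A i))
    (hthin : ∀ i, ∀ g : A i, g ∉ K i → Thin {c : A i | c * g = g * c}) (φ : Γ →* Γ)
    (S : ℕ → Set Γ) (hS : ∀ n g, g ∈ S n ↔ ℓ g ≤ n) :
    Tendsto (fun n => (Nat.card {p : Γ × Γ // p.1 ∈ S n ∧ p.2 ∈ S n ∧
      p.1 * p.2 = p.2 * φ p.1} : ℝ) / (Nat.card (S n) : ℝ) ^ 2) atTop (nhds 0) := by
  classical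
  have : Infinite (∀ i, A i) := Infinite.of_injective e e.injective
  obtain ⟨φ', hφe⟩ : ∃ φ' : (∀ i, A i) →* (∀ i, A i), ∀ g, φ' (e g) = e (φ g) := by
    refine ⟨(e.toMonoidHom.comp φ).comp e.symm.toMonoidHom, fun g => ?_⟩
    have : e.symm (e g) = g := e.symm_apply_apply g
    show e (φ (e.symm (e g))) = _
    rw [this]
  have hBB : ∀ n g, e g ∈ h.B n ↔ g ∈ hΓ.B n := by
    intro n g
    rw [h.mem_B, hΓ.mem_B, hℓ]
  have hmB : ∀ n g, g ∈ S n ↔ g ∈ hΓ.B n := by
    intro n g
    rw [hS, hΓ.mem_B]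
  -- comparison of the counts
  have hcard : ∀ n, Nat.card (S n) = h.f n := by
    intro n
    have h1 : Nat.card (S n) = (hΓ.B n).card := by
      rw [Nat.card_congr (Equiv.subtypeEquivRight (hmB n)), Nat.card_eq_fintype_card,
        Fintype.card_coe]
    rw [h1, GLen.f]
    refine Finset.card_bij (fun g _ => e g) (fun g hg => (hBB n g).mpr hg)
      (fun g _ g' _ hgg => e.injective hgg) (fun g hg => ?_)
    obtain ⟨g', rfl⟩ := e.surjective g
    exact ⟨g', (hBB n g').mp hg, rfl⟩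
  have hnum : ∀ n, Nat.card {p : Γ × Γ // p.1 ∈ S n ∧ p.2 ∈ S n ∧
      p.1 * p.2 = p.2 * φ p.1} = ∑ x ∈ h.B n, (Dn h φ' n x).card := by
    intro n
    rw [card_pairs (hΓ.B n) φ (S n) (hmB n),
      card_transfer e (hΓ.B n) (h.B n) (hBB n) φ φ' hφe]
    refine Finset.sum_congr rfl fun x _ => ?_
    unfold Dn
    congr
  rw [Metric.tendsto_atTop]
  intro c hc
  have hmain := main h K φ' hthin hc
  obtain ⟨N, hN⟩ := hmain.exists_forall_of_atTop
  refine ⟨N, fun n hn => ?_⟩
  have h1 := hN n hn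
  have hfn : (0 : ℝ) < h.f n := by exact_mod_cast h.f_pos n
  rw [hnum, hcard]
  push_cast
  have h3 : 0 ≤ (∑ x ∈ h.B n, ((Dn h φ' n x).card : ℝ)) / (h.f n : ℝ) ^ 2 :=
    div_nonneg (Finset.sum_nonneg fun _ _ => Nat.cast_nonneg _) (sq_nonneg _)
  have h4 : (0 : ℝ) < (h.f n : ℝ) ^ 2 := pow_pos hfn 2
  rw [Real.dist_eq, sub_zero, abs_of_nonneg h3, div_lt_iff₀ h4]
  exact h1

/-- Passage from the products to word metrics. -/
theorem tendsto_tdcSeq {Γ : Type*} [Group Γ] [Infinite Γ] {X : Finset Γ}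
    (hX : Subgroup.closure (X : Set Γ) = ⊤) {ι : Type*} [Fintype ι] {A : ι → Type*}
    [∀ i, Group (A i)] (e : Γ ≃* (∀ i, A i)) (K : ∀ i, Finset (A i))
    (hthin : ∀ i, ∀ g : A i, g ∉ K i → Thin {c : A i | c * g = g * c}) (φ : Γ →* Γ) :
    Tendsto (tdcSeq X φ) atTop (nhds 0) :=
  tendsto_abstract (glen_wlen hX) e ((glen_wlen hX).transfer e.symm)
    (fun g => by rw [e.symm_apply_apply]) K hthin φ (Ball X) (mem_Ball_iff hX)

theorem tdc_eq_zero {Γ : Type*} [Group Γ] {X : Finset Γ} {φ : Γ →* Γ}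
    (h : Tendsto (tdcSeq X φ) atTop (nhds 0)) : tdc X φ = 0 := h.limsup_eq

end Pool.Agent.K9h89.TD
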