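import Pool.Agent.K9h89.TD.Gr
import Pool.Agent.K9h89.TD.Word

/-!
# Direct products with a group of subexponential growth
-/

set_option autoImplicit false

namespace Pool.Agent.K9h89.TDU

open Filter Pool.Agent.K9h89.TD Pool.Agent.K9h89.TD.GLen

section

variable {V : Type*} [Group V] {m : V → ℕ} (hm : GLen m)
  {ι : Type*} [Fintype ι] [DecidableEq ι] {A : ι → Type*} [∀ i, Group (A i)]
  {ℓ : (∀ i, A i) → ℕ} (h : GLen ℓ)
  (ψ : V → (∀ i, A i) → (∀ i, A i))

open Classical in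
/-- number of solutions with given components in `V` -/
noncomputable def NN (m : V → ℕ) (n : ℕ) (q : V × V) : ℕ :=
  ((h.B n ×ˢ h.B n).filter (fun p => m q.1 + ℓ p.1 ≤ n ∧ m q.2 + ℓ p.2 ≤ n ∧
    p.1 * p.2 = p.2 * ψ q.1 p.1)).card

theorem NN_le_sum (n : ℕ) (q : V × V) :
    NN h ψ m n q ≤ ∑ x ∈ h.B n, (Dn h (fun _ => ψ q.1) n x).card := by
  classical
  rw [← Finset.card_sigma]
  unfold NN
  refine Finset.card_le_card_of_injOn (fun p => ⟨p.1, p.2⟩) ?_ ?_
  · rintro ⟨x, y⟩ hp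
    simp only [Finset.coe_filter, Set.mem_ofPred_eq, Finset.mem_product] at hp
    simp only [Finset.coe_sigma, Set.mem_sigma_iff, Finset.mem_coe, Dn, Finset.mem_filter]
    exact ⟨hp.1.1, hp.1.2, hp.2.2.2⟩
  · rintro ⟨x, y⟩ _ ⟨x', y'⟩ _ heq
    simp only [Sigma.mk.injEq, heq_eq_eq] at heq
    rw [heq.1, heq.2]

theorem NN_le_bound {θ : ℝ} (hθ : 0 < θ)
    (hdec : ∀ n k, (h.f n : ℝ) ≤ 2 * θ ^ k * h.f (n + k)) (n : ℕ) (q : V × V) :
    (NN h ψ m n q : ℝ) ≤ 4 * (θ ^ m q.1 * θ ^ m q.2) * (h.f n : ℝ) ^ 2 := by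
  classical
  by_cases h1 : m q.1 ≤ n ∧ m q.2 ≤ n
  · have h2 : NN h ψ m n q ≤ h.f (n - m q.1) * h.f (n - m q.2) := by
      unfold NN GLen.f
      rw [← Finset.card_product]
      refine Finset.card_le_card ?_
      rintro ⟨x, y⟩ hp
      rw [Finset.mem_filter] at hp
      rw [Finset.mem_product, h.mem_B, h.mem_B]
      have := hp.2.1
      have := hp.2.2.1
      simp only at *
      exact ⟨by omega, by omega⟩
    have h3 := hdec (n - m q.1) (m q.1)
    have h4 := hdec (n - m q.2) (m q.2)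
    rw [Nat.sub_add_cancel h1.1] at h3
    rw [Nat.sub_add_cancel h1.2] at h4
    have h5 : (NN h ψ m n q : ℝ) ≤ (h.f (n - m q.1) : ℝ) * (h.f (n - m q.2) : ℝ) := by
      exact_mod_cast h2
    calc (NN h ψ m n q : ℝ) ≤ (h.f (n - m q.1) : ℝ) * (h.f (n - m q.2) : ℝ) := h5
      _ ≤ (2 * θ ^ m q.1 * h.f n) * (2 * θ ^ m q.2 * h.f n) :=
          mul_le_mul h3 h4 (Nat.cast_nonneg _) (by positivity)
      _ = _ := by ring
  · have h2 : NN h ψ m n q = 0 := by
      unfold NN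
      rw [Finset.card_eq_zero, Finset.filter_eq_empty_iff]
      rintro ⟨x, y⟩ _ hp
      apply h1
      have := hp.1
      have := hp.2.1
      simp only at *
      exact ⟨by omega, by omega⟩
    rw [h2]
    push_cast
    positivity

theorem tendsto_sum [Infinite (∀ i, A i)] (K : ∀ i, Finset (A i))
    (hthin : ∀ i, ∀ g : A i, g ∉ K i → Thin {c : A i | c * g = g * c})
    (hsub : ∀ c : ℝ, 1 < c → ∃ C : ℝ, ∀ n, (hm.f n : ℝ) ≤ C * c ^ n)
    {L : ℕ} (hL : 0 < L) (hg : ∀ n, 2 * h.f n ≤ h.f (n + L)) :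
    Tendsto (fun n => ∑' q : V × V, (NN h ψ m n q : ℝ) / (h.f n : ℝ) ^ 2) atTop (nhds 0) ∧
    ∀ n, Summable (fun q : V × V => (NN h ψ m n q : ℝ) / (h.f n : ℝ) ^ 2) := by
  classical
  obtain ⟨θ, hθ0, hθ1, hdec⟩ := decay h hL hg
  have hs := summable_sub hm hsub hθ0 hθ1
  have hs2 : Summable (fun q : V × V => 4 * (θ ^ m q.1 * θ ^ m q.2)) :=
    (hs.mul_of_nonneg hs (fun a => by positivity) (fun a => by positivity)).mul_left 4
  have hf : ∀ n, (0 : ℝ) < (h.f n : ℝ) ^ 2 := fun n => by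
    have : (0 : ℝ) < h.f n := by exact_mod_cast h.f_pos n
    positivity
  have hb : ∀ n (q : V × V), (NN h ψ m n q : ℝ) / (h.f n : ℝ) ^ 2 ≤
      4 * (θ ^ m q.1 * θ ^ m q.2) := by
    intro n q
    rw [div_le_iff₀ (hf n)]
    exact NN_le_bound h ψ hθ0 hdec n q
  have hnn : ∀ n (q : V × V), (0 : ℝ) ≤ (NN h ψ m n q : ℝ) / (h.f n : ℝ) ^ 2 :=
    fun n q => by positivity
  refine ⟨?_, fun n => Summable.of_nonneg_of_le (hnn n) (hb n) hs2⟩
  have h0 : (0 : ℝ) = ∑' _ : V × V, (0 : ℝ) := by simp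
  rw [h0]
  refine tendsto_tsum_of_dominated_convergence hs2 ?_ ?_
  · intro q
    rw [Metric.tendsto_atTop]
    intro c hc
    obtain ⟨N, hN⟩ := (main h K (fun _ => ψ q.1) hthin hc).exists_forall_of_atTop
    refine ⟨N, fun n hn => ?_⟩
    have h1 := hN n hn
    have h2 := NN_le_sum (m := m) h ψ n q
    have h3 : (NN h ψ m n q : ℝ) ≤ ∑ x ∈ h.B n, ((Dn h (fun _ => ψ q.1) n x).card : ℝ) := by
      exact_mod_cast h2
    rw [Real.dist_eq, sub_zero, abs_of_nonneg (hnn n q), div_lt_iff₀ (hf n)]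
    linarith
  · refine Filter.Eventually.of_forall fun n q => ?_
    rw [Real.norm_of_nonneg (hnn n q)]
    exact hb n q

/-- the count for the direct product -/
theorem prod_tendsto [Infinite (∀ i, A i)] (K : ∀ i, Finset (A i))
    (hthin : ∀ i, ∀ g : A i, g ∉ K i → Thin {c : A i | c * g = g * c})
    (hsub : ∀ c : ℝ, 1 < c → ∃ C : ℝ, ∀ n, (hm.f n : ℝ) ≤ C * c ^ n)
    {L : ℕ} (hL : 0 < L) (hg : ∀ n, 2 * h.f n ≤ h.f (n + L))
    {Γ : Type*} [Group Γ] (e : Γ ≃* V × (∀ i, A i)) (φ : Γ →* Γ) (S : ℕ → Set Γ)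
    (hS : ∀ n g, g ∈ S n ↔ m (e g).1 + ℓ (e g).2 ≤ n) :
    Tendsto (fun n => (Nat.card {p : Γ × Γ // p.1 ∈ S n ∧ p.2 ∈ S n ∧
      p.1 * p.2 = p.2 * φ p.1} : ℝ) / (Nat.card (S n) : ℝ) ^ 2) atTop (nhds 0) := by
  classical
  set ψ : V → (∀ i, A i) → (∀ i, A i) := fun a x => (e (φ (e.symm (a, x)))).2 with hψ
  obtain ⟨ht, hsum⟩ := tendsto_sum hm h ψ K hthin hsub hL hg
  -- the ball as a finset
  have hfin : ∀ n, (S n).Finite := by
    intro n
    have : (((hm.B n ×ˢ h.B n : Finset (V × (∀ i, A i))) : Set (V × (∀ i, A i)))).Finite :=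
      Finset.finite_toSet _
    refine (this.preimage e.injective.injOn).subset ?_
    intro g hg'
    rw [hS] at hg'
    rw [Set.mem_preimage, Finset.mem_coe, Finset.mem_product, hm.mem_B, h.mem_B]
    exact ⟨by omega, by omega⟩
  have hden : ∀ n, (h.f n : ℝ) ≤ (Nat.card (S n) : ℝ) := by
    intro n
    have : (h.B n).card ≤ (hfin n).toFinset.card := by
      refine Finset.card_le_card_of_injOn (fun x => e.symm (1, x)) ?_ ?_
      · intro x hx
        rw [Finset.mem_coe, h.mem_B] at hx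
        rw [Finset.mem_coe, Set.Finite.mem_toFinset, hS, MulEquiv.apply_symm_apply]
        simp only [hm.one]
        omega
      · intro x _ y _ hxy
        have := e.symm.injective hxy
        simpa using this
    rw [Nat.card_coe_set_eq, Set.ncard_eq_toFinset_card _ (hfin n)]
    exact_mod_cast this
  have hnum : ∀ n, Nat.card {p : Γ × Γ // p.1 ∈ S n ∧ p.2 ∈ S n ∧ p.1 * p.2 = p.2 * φ p.1} ≤
      ∑ q ∈ hm.B n ×ˢ hm.B n, NN h ψ m n q := by
    intro n
    set Z : Finset (Γ × Γ) := ((hfin n).toFinset ×ˢ (hfin n).toFinset).filter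
      (fun p => p.1 * p.2 = p.2 * φ p.1) with hZ
    have h1 : Nat.card {p : Γ × Γ // p.1 ∈ S n ∧ p.2 ∈ S n ∧ p.1 * p.2 = p.2 * φ p.1} =
        Z.card := by
      have h2 : ∀ p : Γ × Γ, (p.1 ∈ S n ∧ p.2 ∈ S n ∧ p.1 * p.2 = p.2 * φ p.1) ↔ p ∈ Z := by
        intro p
        rw [hZ, Finset.mem_filter, Finset.mem_product, Set.Finite.mem_toFinset,
          Set.Finite.mem_toFinset, and_assoc]
      rw [Nat.card_congr (Equiv.subtypeEquivRight h2), Nat.card_eq_fintype_card,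
        Fintype.card_coe]
    rw [h1]
    have hmaps : ∀ p ∈ Z, (fun p : Γ × Γ => ((e p.1).1, (e p.2).1)) p ∈ hm.B n ×ˢ hm.B n := by
      intro p hp
      rw [hZ, Finset.mem_filter, Finset.mem_product, Set.Finite.mem_toFinset,
        Set.Finite.mem_toFinset, hS, hS] at hp
      rw [Finset.mem_product, hm.mem_B, hm.mem_B]
      have := hp.1.1
      have := hp.1.2
      exact ⟨by simp only; omega, by simp only; omega⟩
    rw [Finset.card_eq_sum_card_fiberwise hmaps]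
    refine Finset.sum_le_sum fun q _ => ?_
    unfold NN
    refine Finset.card_le_card_of_injOn (fun p : Γ × Γ => ((e p.1).2, (e p.2).2)) ?_ ?_
    · rintro ⟨x, y⟩ hp
      simp only [Finset.coe_filter, Set.mem_ofPred_eq, hZ, Finset.mem_filter,
        Finset.mem_product, Set.Finite.mem_toFinset, hS] at hp
      obtain ⟨⟨⟨hx, hy⟩, hxy⟩, hq⟩ := hp
      have hq1 : (e x).1 = q.1 := by rw [← hq]
      have hq2 : (e y).1 = q.2 := by rw [← hq]
      simp only [Finset.coe_filter, Set.mem_ofPred_eq, Finset.mem_product, h.mem_B]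
      rw [hq1] at hx
      rw [hq2] at hy
      refine ⟨⟨by omega, by omega⟩, hx, hy, ?_⟩
      have h2 : e (x * y) = e (y * φ x) := by rw [hxy]
      rw [map_mul, map_mul] at h2
      have h3 := congrArg Prod.snd h2
      simp only [Prod.snd_mul] at h3
      rw [h3, hψ]
      simp only
      rw [← hq1, Prod.mk.eta, MulEquiv.symm_apply_apply]
    · rintro ⟨x, y⟩ hp ⟨x', y'⟩ hp' heq
      simp only [Finset.coe_filter, Set.mem_ofPred_eq] at hp hp'
      have a1 : ((e x).1, (e y).1) = q := hp.2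
      have a2 : ((e x').1, (e y').1) = q := hp'.2
      rw [← a2] at a1
      simp only [Prod.mk.injEq] at a1 heq
      have b1 : e x = e x' := Prod.ext a1.1 heq.1
      have b2 : e y = e y' := Prod.ext a1.2 heq.2
      rw [e.injective b1, e.injective b2]
  refine squeeze_zero (fun n => by positivity) (fun n => ?_) ht
  have hfn : (0 : ℝ) < h.f n := by exact_mod_cast h.f_pos n
  have h1 : (Nat.card {p : Γ × Γ // p.1 ∈ S n ∧ p.2 ∈ S n ∧ p.1 * p.2 = p.2 * φ p.1} : ℝ) ≤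
      ∑ q ∈ hm.B n ×ˢ hm.B n, (NN h ψ m n q : ℝ) := by exact_mod_cast hnum n
  calc (Nat.card {p : Γ × Γ // p.1 ∈ S n ∧ p.2 ∈ S n ∧ p.1 * p.2 = p.2 * φ p.1} : ℝ) /
      (Nat.card (S n) : ℝ) ^ 2 ≤
        (∑ q ∈ hm.B n ×ˢ hm.B n, (NN h ψ m n q : ℝ)) / (h.f n : ℝ) ^ 2 := by
        refine div_le_div₀ (Finset.sum_nonneg fun _ _ => Nat.cast_nonneg _) h1 (by positivity) ?_
        exact pow_le_pow_left₀ hfn.le (hden n) 2
    _ = ∑ q ∈ hm.B n ×ˢ hm.B n, (NN h ψ m n q : ℝ) / (h.f n : ℝ) ^ 2 := by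
        rw [Finset.sum_div]
    _ ≤ _ := (hsum n).sum_le_tsum _ (fun _ _ => by positivity)

end

end Pool.Agent.K9h89.TDU
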