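import Pool.Agent.K9h89.TD.Fin
import Pool.Agent.N6.W.Poly

/-!
# Virtually abelian groups have subexponential growth
-/

set_option autoImplicit false

namespace Pool.Agent.K9h89.TDU

open Filter Pool.Agent.K9h89.TD
open scoped Pointwise

theorem sub_of_va {V : Type*} [Group V] (B : Subgroup V) (hB : B.FiniteIndex)
    (hab : ∀ a ∈ B, ∀ b ∈ B, a * b = b * a) (Y : Finset V) (c : ℝ) (hc : 1 < c) :
    ∃ C : ℝ, ∀ n, (Nat.card (Ball Y n) : ℝ) ≤ C * c ^ n := by
  classical
  obtain ⟨C, d, hCd⟩ := Pool.Agent.N6.W.poly_growth B hB hab Y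
  have ht := tendsto_pow_const_div_const_pow_of_one_lt d hc
  obtain ⟨D, hD⟩ := ht.bddAbove_range
  refine ⟨C * (D * c), fun n => ?_⟩
  have hfin : ∀ n : ℕ, ((Pool.Agent.N6.W.Sy Y) ^ n).Finite := by
    intro n
    have : (Pool.Agent.N6.W.Sy Y).Finite :=
      (Y.finite_toSet.union Y.finite_toSet.inv).union (Set.finite_singleton _)
    induction n with
    | zero => rw [pow_zero]; exact Set.finite_one
    | succ n ih => rw [pow_succ]; exact ih.mul this
  have h1 : Ball Y n ⊆ (Pool.Agent.N6.W.Sy Y) ^ n := by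
    have hone : (1 : V) ∈ Pool.Agent.N6.W.Sy Y := Or.inr rfl
    have key : ∀ l : List V, (∀ x ∈ l, x ∈ Y ∨ x⁻¹ ∈ Y) →
        l.prod ∈ (Pool.Agent.N6.W.Sy Y) ^ l.length := by
      intro l
      induction l with
      | nil => intro _; simp
      | cons x l ih =>
        intro hl
        rw [List.prod_cons, List.length_cons, pow_succ']
        refine Set.mul_mem_mul ?_ (ih fun y hy => hl y (List.mem_cons_of_mem _ hy))
        rcases hl x (by simp) with h | h
        · exact Or.inl (Or.inl h)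
        · exact Or.inl (Or.inr h)
    rintro g ⟨l, hl, hl', rfl⟩
    exact Set.pow_subset_pow_right hone hl (key l hl')
  have h2 : Nat.card (Ball Y n) ≤ C * (n + 1) ^ d := by
    rw [Nat.card_coe_set_eq]
    exact (Set.ncard_le_ncard h1 (hfin n)).trans (hCd n)
  have h3 : ((n + 1 : ℕ) : ℝ) ^ d / c ^ (n + 1) ≤ D := hD ⟨n + 1, rfl⟩
  have hc0 : (0 : ℝ) < c ^ (n + 1) := by positivity
  rw [div_le_iff₀ hc0] at h3
  calc (Nat.card (Ball Y n) : ℝ) ≤ C * ((n + 1 : ℕ) : ℝ) ^ d := by exact_mod_cast h2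
    _ ≤ C * (D * c ^ (n + 1)) := mul_le_mul_of_nonneg_left h3 (Nat.cast_nonneg _)
    _ = C * (D * c) * c ^ n := by rw [pow_succ]; ring

end Pool.Agent.K9h89.TDU
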